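import Pool.Agent.Helper47.Cyc.Levels

/-!
# Coherent labellings; the induction over the orbits
-/

namespace Pool.Agent.Helper47.Cyc

set_option linter.unusedSectionVars false

variable {α : Type} [Fintype α] [DecidableEq α]

section Orbit

variable {σ : Equiv.Perm α} {O : Finset α}

theorem Inv.sub {A : Finset α} (h : Inv σ A) (s : ℤ) {S : Finset α} (hS : S ⊆ A) :
    ac (σ ^ s) S ⊆ A := by
  have := ac_subset (g := σ ^ s) hS
  rwa [h.zpow] at this

/-- transversal property on an orbit -/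
theorem trans_orbit (G : OFam σ O) (hinv : Inv σ O) {S : Finset α} (hS : S ⊆ O) {d : ℕ}
    (hd : 0 < d) :
    ∃! S' : Finset α, (∃ t : ℤ, S' = ac (σ ^ (d * t)) S) ∧
      ∀ p, ip (per σ S') (pos G S') p ≤ d.factorization p := by
  obtain ⟨h1, i, h2, h3, h4⟩ := pos_spec G hS
  set k := per σ S with hk
  have hkpos : 0 < k := per_pos σ S
  have hkf : per σ (G.f i S.card) = k := by
    rw [hk]
    conv_rhs => rw [h4]
    rw [per_ac]
  -- for every translate, the position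
  have hpos : ∀ s : ℤ, ∀ l : ℕ, l < k → (k : ℤ) ∣ (pos G S + s) - l →
      pos G (ac (σ ^ s) S) = l := by
    intro s l hl hdvd
    have hsub := hinv.sub s hS
    refine pos_eq G hsub (i := i) (by rw [ac_card]; exact h2) (by rw [ac_card]; exact h3) ?_
      (by rw [per_ac]; exact hl)
    rw [ac_card]
    have h5 : ac (σ ^ s) S = ac (σ ^ (s + pos G S)) (G.f i S.card) := by
      rw [ac_zpow_add, ← h4]
    rw [h5, ac_eq_iff, hkf]
    rwa [add_comm s]
  have hpos' : ∀ s : ℤ, (k : ℤ) ∣ (pos G S + s) - pos G (ac (σ ^ s) S) := by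
    intro s
    have hsub := hinv.sub s hS
    have h5 : ac (σ ^ s) S = ac (σ ^ (s + pos G S)) (G.f i (ac (σ ^ s) S).card) := by
      rw [ac_card, ac_zpow_add, ← h4]
    have := pos_modEq G hsub (by rw [ac_card]; exact h2) (by rw [ac_card]; exact h3) h5
    rw [per_ac] at this
    rwa [add_comm s] at this
  obtain ⟨l, ⟨hl1, ⟨t, hl2⟩, hl3⟩, hl4⟩ := nt_trans hkpos hd (pos G S : ℤ)
  refine ⟨ac (σ ^ (d * t)) S, ⟨⟨t, rfl⟩, ?_⟩, ?_⟩
  · intro p
    rw [per_ac, hpos (d * t) l hl1 (Int.modEq_iff_dvd.1 hl2)]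
    exact hl3 p
  · rintro _ ⟨⟨t', rfl⟩, h5⟩
    have h6 : pos G (ac (σ ^ (d * t')) S) < k := by
      have := (pos_spec G (hinv.sub (d * t') hS)).1
      rwa [per_ac] at this
    have h7 := hl4 (pos G (ac (σ ^ (d * t')) S)) ⟨h6, ⟨t', by
      rw [Int.modEq_iff_dvd]; exact hpos' _⟩, by
      intro p
      have := h5 p
      rwa [per_ac] at this⟩
    rw [ac_eq_iff]
    have h8 := hpos' (d * t')
    rw [h7] at h8
    have h9 : (k : ℤ) ∣ (pos G S + d * t) - l := Int.modEq_iff_dvd.1 hl2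
    have := dvd_sub h8 h9
    rwa [show (pos G S + d * t' - l : ℤ) - (pos G S + d * t - l) = d * t' - d * t by ring] at this

end Orbit

/-- coherent labelled symmetric chain decomposition of the subsets of `A` -/
def Coh (σ : Equiv.Perm α) (A : Finset α) : Prop :=
  ∃ lab : Finset α → ℕ → ℕ, (∀ e, HasSCD A.card {S | S ⊆ A ∧ lab S = e}) ∧
    ∀ S ⊆ A, ∀ d : ℕ, 0 < d → ∃! S' : Finset α, (∃ t : ℤ, S' = ac (σ ^ (d * t)) S) ∧
      ∀ p, lab S' p ≤ d.factorization p

theorem coh_empty (σ : Equiv.Perm α) : Coh σ ∅ := by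
  refine ⟨fun _ _ => 0, ?_, ?_⟩
  · intro e
    by_cases he : (fun _ => 0) = e
    · have : {S : Finset α | S ⊆ ∅ ∧ (fun _ : ℕ => 0) = e} = {∅} := by
        ext S
        simp only [Set.mem_ofPred_eq, Set.mem_singleton_iff, Finset.subset_empty, he, and_true]
      rw [this]
      apply IsCh.hasSCD
      refine ⟨0, 0, fun _ => ∅, le_rfl, rfl, ?_, ?_, ?_⟩
      · intro j h1 h2
        simp; omega
      · intro j h1 h2
        exact subset_rfl
      · ext S
        simp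
    · have : {S : Finset α | S ⊆ ∅ ∧ (fun _ : ℕ => 0) = e} = ∅ := by
        rw [Set.eq_empty_iff_forall_notMem]
        rintro S ⟨-, h⟩
        exact he h
      rw [this]; exact HasSCD.empty _
  · intro S hS d hd
    rw [Finset.subset_empty] at hS
    subst hS
    refine ⟨∅, ⟨⟨0, by simp [ac]⟩, fun p => Nat.zero_le _⟩, ?_⟩
    rintro _ ⟨⟨t, rfl⟩, -⟩
    simp [ac]

theorem coh_step {σ : Equiv.Perm α} {O A : Finset α} (G : OFam σ O)
    (hO : ∀ S ⊆ O, ac (σ ^ (O.card : ℤ)) S = S) (h0 : 0 < O.card) (hinv : Inv σ O)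
    (hinvA : Inv σ A) (hdis : Disjoint O A) (hA : Coh σ A) : Coh σ (O ∪ A) := by
  obtain ⟨lab, hlab, htr⟩ := hA
  refine ⟨fun S => Lam (per σ (S ∩ O)) (pos G (S ∩ O)) (lab (S ∩ A)), ?_, ?_⟩
  · intro e
    have hU : {S : Finset α | S ⊆ O ∪ A ∧
        Lam (per σ (S ∩ O)) (pos G (S ∩ O)) (lab (S ∩ A)) = e} =
        ⋃ f : ℕ → ℕ, {u : Finset α | u ⊆ O ∪ A ∧
          u ∩ O ∈ {S : Finset α | S ⊆ O ∧ Lam (per σ S) (pos G S) f = e} ∧
          u ∩ A ∈ {S : Finset α | S ⊆ A ∧ lab S = f}} := by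
      ext S
      simp only [Set.mem_iUnion, Set.mem_ofPred_eq]
      constructor
      · rintro ⟨h1, h2⟩
        exact ⟨lab (S ∩ A), h1, ⟨Finset.inter_subset_right, h2⟩, Finset.inter_subset_right, rfl⟩
      · rintro ⟨f, h1, ⟨-, h2⟩, -, rfl⟩
        exact ⟨h1, h2⟩
    rw [hU, Finset.card_union_of_disjoint hdis]
    refine HasSCD.iUnion ?_ ?_
    · intro f
      exact HasSCD.prod hdis (level_scd hO G h0 hinv f e) (hlab f) (fun s hs => hs.1)
        (fun t ht => ht.1)
    · intro f g hfg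
      rw [Set.disjoint_left]
      rintro S ⟨-, -, -, h1⟩ ⟨-, -, -, h2⟩
      exact hfg (h1.symm.trans h2)
  · intro S hS d hd
    have hS1 : S ∩ O ⊆ O := Finset.inter_subset_right
    have hS2 : S ∩ A ⊆ A := Finset.inter_subset_right
    have hSeq : S = (S ∩ O) ∪ (S ∩ A) := by
      rw [← Finset.inter_union_distrib_left]
      exact (Finset.inter_eq_left.2 hS).symm
    set k := per σ (S ∩ O) with hk
    have hkpos : 0 < k := per_pos σ _
    obtain ⟨_, ⟨⟨t1, rfl⟩, h1⟩, h2⟩ := trans_orbit G hinv hS1 hd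
    have hlcm : 0 < Nat.lcm d k := Nat.lcm_pos hd hkpos
    have hfac : ∀ p, (Nat.lcm d k).factorization p =
        max (d.factorization p) (k.factorization p) := by
      intro p
      rw [Nat.factorization_lcm hd.ne' hkpos.ne']
      rfl
    obtain ⟨_, ⟨⟨t2, rfl⟩, h3⟩, h4⟩ := htr (ac (σ ^ ((d : ℤ) * t1)) (S ∩ A))
      (hinvA.sub _ hS2) (Nat.lcm d k) hlcm
    obtain ⟨m, hm⟩ := Nat.dvd_lcm_left d k
    obtain ⟨m', hm'⟩ := Nat.dvd_lcm_right d k
    have hmz : ((Nat.lcm d k : ℕ) : ℤ) = d * m := by rw [hm]; push_cast; ring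
    have hmz' : ((Nat.lcm d k : ℕ) : ℤ) = k * m' := by rw [hm']; push_cast; ring
    have hfixO : ∀ u : ℤ, ac (σ ^ (((Nat.lcm d k : ℕ) : ℤ) * u)) (ac (σ ^ ((d : ℤ) * t1)) (S ∩ O)) =
        ac (σ ^ ((d : ℤ) * t1)) (S ∩ O) := by
      intro u
      rw [per_iff, per_ac, ← hk, hmz']
      exact ⟨m' * u, by ring⟩
    have hact : ∀ s : ℤ, ac (σ ^ s) S ∩ O = ac (σ ^ s) (S ∩ O) ∧
        ac (σ ^ s) S ∩ A = ac (σ ^ s) (S ∩ A) := by
      intro s
      rw [ac_inter, ac_inter, hinv.zpow, hinvA.zpow]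
      exact ⟨rfl, rfl⟩
    refine ⟨ac (σ ^ ((d : ℤ) * (t1 + m * t2))) S, ⟨⟨_, rfl⟩, ?_⟩, ?_⟩
    · intro p
      simp only
      rw [(hact _).1, (hact _).2]
      have h5 : (d : ℤ) * (t1 + m * t2) = ((Nat.lcm d k : ℕ) : ℤ) * t2 + d * t1 := by
        rw [hmz]; ring
      rw [h5, ac_zpow_add, ac_zpow_add, hfixO]
      unfold Lam
      apply max_le (h1 p)
      unfold adj
      rw [per_ac, ← hk]
      split_ifs with h6
      · have h7 := h3 p
        rw [hfac] at h7
        rcases le_max_iff.1 h7 with h8 | h8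
        · exact h8
        · omega
      · exact Nat.zero_le _
    · rintro _ ⟨⟨t, rfl⟩, h5⟩
      simp only at h5
      rw [(hact _).1, (hact _).2] at h5
      have h6 : ac (σ ^ ((d : ℤ) * t)) (S ∩ O) = ac (σ ^ ((d : ℤ) * t1)) (S ∩ O) := by
        apply h2
        exact ⟨⟨t, rfl⟩, fun p => le_trans (le_max_left _ _) (h5 p)⟩
      have h7 : (k : ℤ) ∣ d * t - d * t1 := by
        rw [hk]; exact (ac_eq_iff _ _).1 h6
      have h8 : (d : ℤ) ∣ d * t - d * t1 := ⟨t - t1, by ring⟩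
      have h9 : ((Nat.lcm d k : ℕ) : ℤ) ∣ d * t - d * t1 := by
        have := lcm_dvd h8 h7
        rwa [← Int.coe_lcm, Int.lcm_natCast_natCast] at this
      obtain ⟨u, hu⟩ := h9
      have h10 : (d : ℤ) * t = ((Nat.lcm d k : ℕ) : ℤ) * u + d * t1 := by linarith
      have h11 : ac (σ ^ ((d : ℤ) * t)) (S ∩ A) =
          ac (σ ^ (((Nat.lcm d k : ℕ) : ℤ) * t2)) (ac (σ ^ ((d : ℤ) * t1)) (S ∩ A)) := by
        apply h4
        refine ⟨⟨u, by rw [h10, ac_zpow_add]⟩, fun p => ?_⟩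
        rw [hfac]
        have h12 := le_trans (le_max_right _ _) (h5 p)
        unfold adj at h12
        rw [per_ac, ← hk] at h12
        split_ifs at h12 with h13
        · exact le_max_of_le_left h12
        · exact le_max_of_le_right (by omega)
      have h13 : (d : ℤ) * (t1 + m * t2) = ((Nat.lcm d k : ℕ) : ℤ) * t2 + d * t1 := by
        rw [hmz]; ring
      conv_lhs => rw [hSeq, ac_union, h6, h11]
      conv_rhs => rw [hSeq, ac_union, h13, ac_zpow_add, ac_zpow_add, hfixO]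

/-- the orbit of a point -/
def orb (σ : Equiv.Perm α) (x : α) : Finset α := Finset.univ.filter fun y => σ.SameCycle x y

theorem mem_orb {σ : Equiv.Perm α} {x y : α} : y ∈ orb σ x ↔ ∃ s : ℤ, (σ ^ s) x = y := by
  simp only [orb, Finset.mem_filter, Finset.mem_univ, true_and]
  rfl

theorem orb_cycleOn (σ : Equiv.Perm α) (x : α) : σ.IsCycleOn (orb σ x : Set α) := by
  refine ⟨⟨?_, σ.injective.injOn, ?_⟩, ?_⟩
  · intro y hy
    have hy' : y ∈ orb σ x := hy
    rw [mem_orb] at hy'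
    obtain ⟨s, rfl⟩ := hy'
    show σ ((σ ^ s) x) ∈ orb σ x
    rw [mem_orb]
    exact ⟨1 + s, by rw [zpow_add, zpow_one]; rfl⟩
  · intro y hy
    have hy' : y ∈ orb σ x := hy
    rw [mem_orb] at hy'
    obtain ⟨s, rfl⟩ := hy'
    refine ⟨(σ ^ (-1 + s)) x, ?_, ?_⟩
    · show (σ ^ (-1 + s)) x ∈ orb σ x
      rw [mem_orb]; exact ⟨_, rfl⟩
    · rw [← Equiv.Perm.mul_apply, ← zpow_one_add]
      congr 2; ring
  · intro y hy z hz
    have hy' : y ∈ orb σ x := hy
    have hz' : z ∈ orb σ x := hz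
    rw [mem_orb] at hy' hz'
    obtain ⟨s, rfl⟩ := hy'
    obtain ⟨t, rfl⟩ := hz'
    exact ⟨t - s, by rw [← Equiv.Perm.mul_apply, ← zpow_add]; congr 2; ring⟩

theorem orb_inv (σ : Equiv.Perm α) (x : α) : Inv σ (orb σ x) := by
  ext y
  rw [mem_ac, mem_orb, mem_orb]
  constructor
  · rintro ⟨s, hs⟩
    exact ⟨1 + s, by rw [zpow_add, zpow_one, Equiv.Perm.mul_apply, hs, Equiv.Perm.inv_def,
      Equiv.apply_symm_apply]⟩
  · rintro ⟨s, hs⟩
    exact ⟨-1 + s, by rw [zpow_add, zpow_neg_one, Equiv.Perm.mul_apply, hs]⟩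

theorem coh_all (σ : Equiv.Perm α) : ∀ (n : ℕ) (A : Finset α), A.card = n → Inv σ A → Coh σ A := by
  intro n
  induction n using Nat.strong_induction_on with
  | _ n ih =>
    intro A hn hA
    by_cases hne : A = ∅
    · subst hne; exact coh_empty σ
    obtain ⟨x, hx⟩ := Finset.nonempty_iff_ne_empty.2 hne
    have hOA : orb σ x ⊆ A := by
      intro y hy
      rw [mem_orb] at hy
      obtain ⟨s, rfl⟩ := hy
      have := hA.zpow s
      rw [← this, apply_mem_ac]
      exact hx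
    have hxO : x ∈ orb σ x := mem_orb.2 ⟨0, by simp⟩
    have h0 : 0 < (orb σ x).card := Finset.card_pos.2 ⟨x, hxO⟩
    have hcyc := orb_cycleOn σ x
    have hper : ∀ y ∈ orb σ x, ∀ s : ℤ, (σ ^ s) y = y ↔ ((orb σ x).card : ℤ) ∣ s := by
      intro y hy s
      exact hcyc.zpow_apply_eq hy
    obtain ⟨G⟩ := exists_ofam (σ := σ) (O := orb σ x) (x0 := x) (fun y => mem_orb)
      (hper x hxO) h0
    have hB : Inv σ (A \ orb σ x) := by
      ext y
      rw [mem_ac, Finset.mem_sdiff, Finset.mem_sdiff]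
      have h1 : σ⁻¹ y ∈ A ↔ y ∈ A := by
        conv_rhs => rw [← show ac σ A = A from hA]
        rw [mem_ac]
      have h2 : σ⁻¹ y ∈ orb σ x ↔ y ∈ orb σ x := by
        conv_rhs => rw [← show ac σ (orb σ x) = orb σ x from orb_inv σ x]
        rw [mem_ac]
      rw [h1, h2]
    have hcard : (A \ orb σ x).card < n := by
      rw [← hn]
      apply Finset.card_lt_card
      refine ⟨Finset.sdiff_subset, fun h => ?_⟩
      exact (Finset.mem_sdiff.1 (h hx)).2 hxO
    have hcoh := ih _ hcard (A \ orb σ x) rfl hB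
    have := coh_step G ?_ h0 (orb_inv σ x) hB Finset.disjoint_sdiff hcoh
    · rwa [Finset.union_sdiff_of_subset hOA] at this
    · intro S hS
      ext y
      rw [mem_ac]
      constructor
      · intro hy
        have h3 := hS hy
        have h4 := (hper _ h3 (orb σ x).card).2 dvd_rfl
        rw [Equiv.Perm.inv_def, Equiv.apply_symm_apply] at h4
        rw [h4]; exact hy
      · intro hy
        have h3 := hS hy
        have h4 := (hper _ h3 (orb σ x).card).2 dvd_rfl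
        have h5 : (σ ^ ((orb σ x).card : ℤ))⁻¹ y = y := by
          rw [Equiv.Perm.inv_eq_iff_eq, h4]
        rw [h5]; exact hy

end Pool.Agent.Helper47.Cyc
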