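import Mathlib

/-!
# Symmetric chain decompositions of `B_n / ⟨σ⟩`: definitions

`HasSCD n S`: the set `S` of finite sets is partitioned into symmetric saturated chains
(ranks `a, ..., n - a`).  `ip`, `adj`, `Lam`: the number-theoretic labels.
-/

namespace Pool.Agent.Helper47.Cyc

section Chains

variable {α : Type} [DecidableEq α]

/-- `S` is a symmetric saturated chain: ranks `a, a+1, ..., b` with `a + b = n`. -/
def IsCh (n : ℕ) (S : Set (Finset α)) : Prop :=
  ∃ (a b : ℕ) (f : ℕ → Finset α), a ≤ b ∧ a + b = n ∧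
    (∀ j, a ≤ j → j ≤ b → (f j).card = j) ∧
    (∀ j, a ≤ j → j < b → f j ⊆ f (j + 1)) ∧ S = f '' Set.Icc a b

/-- `S` can be partitioned into symmetric saturated chains. -/
def HasSCD (n : ℕ) (S : Set (Finset α)) : Prop :=
  ∃ C : Set (Set (Finset α)), (∀ c ∈ C, IsCh n c) ∧ C.PairwiseDisjoint id ∧ ⋃₀ C = S

end Chains

/-- `ip m l p` is the least `i` with `l mod p ^ v_p(m) < p ^ i` (for `p` prime). -/
def ip (m l p : ℕ) : ℕ :=
  if p.Prime then Nat.clog p (l % p ^ (m.factorization p) + 1) else 0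

/-- the exponent `f p` is only kept where it exceeds `v_p(m)` -/
def adj (m : ℕ) (f : ℕ → ℕ) (p : ℕ) : ℕ := if m.factorization p < f p then f p else 0

/-- the combined label -/
def Lam (m l : ℕ) (f : ℕ → ℕ) (p : ℕ) : ℕ := max (ip m l p) (adj m f p)

end Pool.Agent.Helper47.Cyc
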