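import Pool.Agent.Helper47.Cyc.Coh

/-!
# Groups generated by pairwise disjoint permutations
-/

namespace Pool.Agent.Helper47.Cyc

set_option linter.unusedSectionVars false

variable {α : Type} [Fintype α] [DecidableEq α]

/-- transversal with a symmetric chain decomposition, single permutation -/
theorem single (σ : Equiv.Perm α) (A : Finset α) (hA : Inv σ A) :
    ∃ T : Set (Finset α), HasSCD A.card T ∧ (∀ t ∈ T, t ⊆ A) ∧
      ∀ S ⊆ A, ∃! t, t ∈ T ∧ ∃ s : ℤ, ac (σ ^ s) t = S := by
  obtain ⟨lab, h1, h2⟩ := coh_all σ _ A rfl hA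
  refine ⟨{S | S ⊆ A ∧ lab S = fun _ => 0}, h1 _, fun t ht => ht.1, fun S hS => ?_⟩
  obtain ⟨S', ⟨⟨t, h3⟩, h4⟩, h5⟩ := h2 S hS 1 one_pos
  have hS' : S' ⊆ A := by rw [h3]; exact hA.sub _ hS
  refine ⟨S', ⟨⟨hS', ?_⟩, -(((1 : ℕ) : ℤ) * t), ?_⟩, ?_⟩
  · funext p
    have := h4 p
    simpa using this
  · rw [h3, ← ac_zpow_add, neg_add_cancel, ac_zpow_zero]
  · rintro T ⟨⟨h6, h7⟩, s, h8⟩
    apply h5
    refine ⟨⟨-s, ?_⟩, fun p => by rw [h7]; exact Nat.zero_le _⟩
    rw [← h8, ← ac_zpow_add]
    simp only [Nat.cast_one, one_mul, neg_add_cancel]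
    rw [ac_zpow_zero]

theorem fix_of_closure {σ : Equiv.Perm α} {s : Set (Equiv.Perm α)}
    (hs : ∀ τ ∈ s, Equiv.Perm.Disjoint σ τ) {h : Equiv.Perm α} (hh : h ∈ Subgroup.closure s) :
    ∀ x, σ x ≠ x → h x = x := by
  induction hh using Subgroup.closure_induction with
  | mem τ hτ =>
    intro x hx
    rcases hs τ hτ x with h1 | h1
    · exact absurd h1 hx
    · exact h1
  | one => intro x _; rfl
  | mul g h _ _ ihg ihh =>
    intro x hx
    rw [Equiv.Perm.mul_apply, ihh x hx, ihg x hx]
  | inv g _ ih =>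
    intro x hx
    rw [Equiv.Perm.inv_eq_iff_eq, ih x hx]

theorem commute_of_closure {σ : Equiv.Perm α} {s : Set (Equiv.Perm α)}
    (hs : ∀ τ ∈ s, Equiv.Perm.Disjoint σ τ) {h : Equiv.Perm α} (hh : h ∈ Subgroup.closure s) :
    Commute σ h := by
  induction hh using Subgroup.closure_induction with
  | mem τ hτ => exact (hs τ hτ).commute
  | one => exact Commute.one_right _
  | mul g h _ _ ihg ihh => exact ihg.mul_right ihh
  | inv g _ ih => exact ih.inv_right

theorem mem_closure_insert {σ : Equiv.Perm α} {s : Set (Equiv.Perm α)}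
    (hs : ∀ τ ∈ s, Equiv.Perm.Disjoint σ τ) {g : Equiv.Perm α}
    (hg : g ∈ Subgroup.closure (insert σ s)) :
    ∃ t : ℤ, ∃ h ∈ Subgroup.closure s, g = σ ^ t * h := by
  induction hg using Subgroup.closure_induction with
  | mem τ hτ =>
    rcases hτ with rfl | hτ
    · exact ⟨1, 1, one_mem _, by simp⟩
    · exact ⟨0, τ, Subgroup.subset_closure hτ, by simp⟩
  | one => exact ⟨0, 1, one_mem _, by simp⟩
  | mul g h _ _ ihg ihh =>
    obtain ⟨t, k, hk, rfl⟩ := ihg
    obtain ⟨u, l, hl, rfl⟩ := ihh
    refine ⟨t + u, k * l, mul_mem hk hl, ?_⟩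
    have := ((commute_of_closure hs hk).zpow_left u).eq
    rw [zpow_add]
    calc σ ^ t * k * (σ ^ u * l) = σ ^ t * (k * σ ^ u) * l := by group
      _ = σ ^ t * (σ ^ u * k) * l := by rw [this]
      _ = σ ^ t * σ ^ u * (k * l) := by group
  | inv g _ ih =>
    obtain ⟨t, k, hk, rfl⟩ := ih
    refine ⟨-t, k⁻¹, inv_mem hk, ?_⟩
    have := (((commute_of_closure hs hk).zpow_left t).inv_inv).eq
    rw [mul_inv_rev, zpow_neg, this]

theorem ac_fix {g : Equiv.Perm α} {S : Finset α} (h : ∀ x ∈ S, g x = x) : ac g S = S := by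
  apply Finset.eq_of_subset_of_card_le
  · intro y hy
    rw [mem_ac] at hy
    have h1 := h _ hy
    rw [Equiv.Perm.inv_def, Equiv.apply_symm_apply] at h1
    have h2 : y = g⁻¹ y := h1
    rw [h2]; exact hy
  · rw [ac_card]

theorem disjoint_family (s : Finset (Equiv.Perm α)) :
    (∀ σ ∈ s, ∀ τ ∈ s, σ ≠ τ → Equiv.Perm.Disjoint σ τ) →
    ∀ A : Finset α, (∀ σ ∈ s, σ.support ⊆ A) →
    ∃ T : Set (Finset α), HasSCD A.card T ∧ (∀ t ∈ T, t ⊆ A) ∧
      ∀ S ⊆ A, ∃! t, t ∈ T ∧ ∃ g ∈ Subgroup.closure (s : Set (Equiv.Perm α)), ac g t = S := by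
  classical
  induction s using Finset.induction_on with
  | empty =>
    intro _ A _
    obtain ⟨T, h1, h2, h3⟩ := single (1 : Equiv.Perm α) A (ac_one A)
    refine ⟨T, h1, h2, fun S hS => ?_⟩
    obtain ⟨t, ⟨h4, u, h5⟩, h6⟩ := h3 S hS
    rw [one_zpow, ac_one] at h5
    subst h5
    refine ⟨t, ⟨h4, 1, one_mem _, ac_one _⟩, ?_⟩
    rintro t' ⟨h7, g, hg, h8⟩
    rw [Finset.coe_empty, Subgroup.closure_empty, Subgroup.mem_bot] at hg
    subst hg
    exact h6 t' ⟨h7, 0, by rw [ac_zpow_zero, ← h8, ac_one]⟩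
  | insert σ s hσ ih =>
    intro hdis A hA
    have hd' : ∀ τ ∈ (s : Set (Equiv.Perm α)), Equiv.Perm.Disjoint σ τ := by
      intro τ hτ
      have hτ' : τ ∈ s := hτ
      exact hdis σ (Finset.mem_insert_self _ _) τ (Finset.mem_insert_of_mem hτ')
        (fun h => hσ (h ▸ hτ'))
    set B := σ.support with hB
    set A' := A \ B with hA'
    have hBA : B ⊆ A := hA σ (Finset.mem_insert_self _ _)
    have hsupp : ∀ τ ∈ s, τ.support ⊆ A' := by
      intro τ hτ x hx
      rw [hA', Finset.mem_sdiff]
      refine ⟨hA τ (Finset.mem_insert_of_mem hτ) hx, fun hxB => ?_⟩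
      rw [hB, Equiv.Perm.mem_support] at hxB
      rw [Equiv.Perm.mem_support] at hx
      rcases hd' τ hτ x with h | h
      · exact hxB h
      · exact hx h
    have hBinv : Inv σ B := by
      ext y
      rw [mem_ac, hB, Equiv.Perm.mem_support, Equiv.Perm.mem_support]
      constructor
      · intro h h'
        apply h
        rw [Equiv.Perm.inv_def, Equiv.apply_symm_apply]
        exact (Equiv.Perm.inv_eq_iff_eq.2 h'.symm).symm
      · intro h h'
        apply h
        rw [Equiv.Perm.inv_def, Equiv.apply_symm_apply] at h'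
        exact (Equiv.Perm.inv_eq_iff_eq.1 h'.symm).symm
    obtain ⟨T1, h1, h1', h1u⟩ := single σ B hBinv
    obtain ⟨T2, h2, h2', h2u⟩ := ih
      (fun a ha b hb => hdis a (Finset.mem_insert_of_mem ha) b (Finset.mem_insert_of_mem hb))
      A' hsupp
    have hBA' : Disjoint B A' := Finset.disjoint_sdiff
    have hcard : B.card + A'.card = A.card := by
      rw [hA', Finset.card_sdiff_of_subset hBA]
      have := Finset.card_le_card hBA
      omega
    have hUn : B ∪ A' = A := Finset.union_sdiff_of_subset hBA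
    -- fixed point facts
    have hfixB : ∀ h ∈ Subgroup.closure (s : Set (Equiv.Perm α)), ∀ x ∈ B, h x = x := by
      intro h hh x hx
      exact fix_of_closure hd' hh x (by rw [hB, Equiv.Perm.mem_support] at hx; exact hx)
    have hfixA : ∀ u : ℤ, ∀ x, x ∉ B → (σ ^ u) x = x := by
      intro u x hx
      rw [hB, Equiv.Perm.notMem_support] at hx
      exact Equiv.Perm.zpow_apply_eq_self_of_apply_eq_self hx u
    have hBzp : ∀ u : ℤ, ac (σ ^ u) B = B := fun u => hBinv.zpow u
    refine ⟨{u | u ⊆ B ∪ A' ∧ u ∩ B ∈ T1 ∧ u ∩ A' ∈ T2}, ?_, ?_, ?_⟩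
    · rw [← hcard]
      exact HasSCD.prod hBA' h1 h2 h1' h2'
    · rintro t ⟨h3, -, -⟩
      rwa [hUn] at h3
    · intro S hS
      obtain ⟨t1, ⟨h3, u, h4⟩, h5⟩ := h1u (S ∩ B) Finset.inter_subset_right
      obtain ⟨t2, ⟨h6, h, hh, h7⟩, h8⟩ := h2u (S ∩ A') Finset.inter_subset_right
      have ht1 := h1' t1 h3
      have ht2 := h2' t2 h6
      have hi1 : (t1 ∪ t2) ∩ B = t1 := by
        ext x
        simp only [Finset.mem_inter, Finset.mem_union]
        constructor
        · rintro ⟨h9 | h9, h10⟩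
          · exact h9
          · exact absurd h10 (Finset.mem_sdiff.1 (ht2 h9)).2
        · intro h9; exact ⟨Or.inl h9, ht1 h9⟩
      have hi2 : (t1 ∪ t2) ∩ A' = t2 := by
        ext x
        simp only [Finset.mem_inter, Finset.mem_union]
        constructor
        · rintro ⟨h9 | h9, h10⟩
          · exact absurd (ht1 h9) (Finset.mem_sdiff.1 h10).2
          · exact h9
        · intro h9; exact ⟨Or.inr h9, ht2 h9⟩
      refine ⟨t1 ∪ t2, ⟨⟨?_, by rw [hi1]; exact h3, by rw [hi2]; exact h6⟩, σ ^ u * h, ?_, ?_⟩, ?_⟩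
      · exact Finset.union_subset_union ht1 ht2
      · rw [Finset.coe_insert]
        apply mul_mem
        · exact zpow_mem (Subgroup.subset_closure (Set.mem_insert _ _)) u
        · exact Subgroup.closure_mono (Set.subset_insert _ _) hh
      · rw [ac_mul, ac_union, ac_union, h7, ac_fix (fun x hx => hfixB h hh x (ht1 hx)), h4,
          ac_fix (S := S ∩ A') (fun x hx => hfixA u x
            (Finset.mem_sdiff.1 (Finset.mem_inter.1 hx).2).2),
          ← Finset.inter_union_distrib_left, hUn]
        exact Finset.inter_eq_left.2 hS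
      · rintro t ⟨⟨h9, h10, h11⟩, g, hg, h12⟩
        rw [Finset.coe_insert] at hg
        obtain ⟨v, k, hk, rfl⟩ := mem_closure_insert hd' hg
        have hkB : ∀ X : Finset α, ac k X ∩ B = X ∩ B := by
          intro X
          have : ac k B = B := ac_fix (fun x hx => hfixB k hk x hx)
          rw [← this, ← ac_inter]
          rw [ac_fix (fun x hx => hfixB k hk x (Finset.mem_inter.1 hx).2), this]
        have e1 : S ∩ B = ac (σ ^ v) (t ∩ B) := by
          rw [← h12, ac_mul]
          conv_lhs => rw [← hBzp v]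
          rw [← ac_inter, hkB]
        have e2 : S ∩ A' = ac k (t ∩ A') := by
          have hA'inv : ∀ X : Finset α, ac (σ ^ v) X ∩ A' = X ∩ A' := by
            intro X
            have h13 : ac (σ ^ v) A' = A' := ac_fix (fun x hx => hfixA v x
              (Finset.mem_sdiff.1 hx).2)
            rw [← h13, ← ac_inter]
            rw [ac_fix (fun x hx => hfixA v x
              (Finset.mem_sdiff.1 (Finset.mem_inter.1 hx).2).2), h13]
          have hkA' : ac k A' = A' := by
            have hkAA : ∀ x, x ∉ A' → k x = x := by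
              intro x hx
              have : ∀ τ ∈ (s : Set (Equiv.Perm α)), τ x = x := by
                intro τ hτ
                by_contra h14
                exact hx (hsupp τ hτ (Equiv.Perm.mem_support.2 h14))
              clear h12 hg hkB e1
              induction hk using Subgroup.closure_induction with
              | mem τ hτ => exact this τ hτ
              | one => rfl
              | mul g h _ _ ihg ihh => rw [Equiv.Perm.mul_apply, ihh, ihg]
              | inv g _ ih => rw [Equiv.Perm.inv_eq_iff_eq, ih]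
            apply Finset.eq_of_subset_of_card_le _ (by rw [ac_card])
            intro y hy
            by_contra hyA
            have h14 := hkAA y hyA
            rw [mem_ac] at hy
            have h15 : k⁻¹ y = y := by rw [Equiv.Perm.inv_eq_iff_eq, h14]
            rw [h15] at hy
            exact hyA hy
          rw [← h12, ac_mul, hA'inv]
          conv_lhs => rw [← hkA']
          rw [← ac_inter]
        have h13 := h5 (t ∩ B) ⟨h10, v, e1.symm⟩
        have h14 := h8 (t ∩ A') ⟨h11, k, hk, e2.symm⟩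
        rw [← h13, ← h14, ← Finset.inter_union_distrib_left]
        exact (Finset.inter_eq_left.2 h9).symm

end Pool.Agent.Helper47.Cyc
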