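import Pool.Agent.Helper47.Cyc.Rec

/-!
# Good families exist
-/

namespace Pool.Agent.Helper47.Cyc

/-- the non-constant words -/
def NE (M : ℕ) (β : Set ℤ) : Set (Set ℤ) := {x | x ∈ W M β ∧ x ≠ ∅ ∧ x ≠ Set.univ}

theorem W_sh {M T : ℕ} {β : Set ℤ} (hβ : Per T β) {x : Set ℤ} (hx : x ∈ W M β) (s : ℤ) :
    sh (s * T) x ∈ W M β := by
  refine ⟨hx.1.sh _, fun c hc hc' => ?_⟩
  rw [mem_sh] at hc hc'
  have h1 := hx.2 (c - s * T) hc (by rwa [show c - s * T - 1 = c - 1 - s * T by ring])
  rw [← hβ.mul s] at h1
  simpa using h1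

/-- the equivalence relation on sets of starts -/
def relT (T : ℕ) : Setoid (Set ℤ) where
  r P Q := ∃ s : ℤ, Q = sh (s * T) P
  iseqv := by
    refine ⟨fun P => ⟨0, by simp [sh_zero]⟩, ?_, ?_⟩
    · rintro P Q ⟨s, rfl⟩
      exact ⟨-s, by rw [sh_sh, show -s * (T : ℤ) + s * T = 0 by ring, sh_zero]⟩
    · rintro P Q R ⟨s, rfl⟩ ⟨t, rfl⟩
      exact ⟨t + s, by rw [sh_sh]; congr 1; ring⟩

/-- representative -/
noncomputable def rep (T : ℕ) (P : Set ℤ) : Set ℤ := (Quotient.mk (relT T) P).out

theorem rep_rel (T : ℕ) (P : Set ℤ) : ∃ s : ℤ, P = sh (s * T) (rep T P) := by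
  have : (relT T).r (rep T P) P := Quotient.exact (s := relT T) (Quotient.out_eq _)
  exact this

theorem rep_eq (T : ℕ) {P Q : Set ℤ} (s : ℤ) (h : Q = sh (s * T) P) : rep T Q = rep T P := by
  unfold rep
  congr 1
  apply Quotient.sound (s := relT T)
  show (relT T).r Q P
  exact (relT T).iseqv.symm ⟨s, h⟩

theorem rep_rep (T : ℕ) (P : Set ℤ) : rep T (rep T P) = rep T P := by
  obtain ⟨s, hs⟩ := rep_rel T P
  exact (rep_eq T s hs).symm

theorem starts_nonempty_of {M : ℕ} (hM : 0 < M) {β x : Set ℤ} (hx : x ∈ NE M β) :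
    (starts x).Nonempty := by
  rw [Set.nonempty_iff_ne_empty]
  intro h
  rcases starts_empty (by exact_mod_cast hM) hx.1.1 h with h | h
  · exact hx.2.1 h
  · exact hx.2.2 h

theorem fam_nonextreme {M T : ℕ} {β : Set ℤ} (hM : 0 < M) (hT : 0 < T) (hTM : T ∣ M)
    (hβ : Per T β)
    (IH : ∀ M' T' : ℕ, ∀ β' : Set ℤ, 0 < M' → M' < M → 0 < T' → T' ∣ M' → Per T' β' →
      β'.Nonempty → Nonempty (Fam M' T' (W M' β'))) :
    Nonempty (Fam M T (NE M β)) := by
  have hMz : (0 : ℤ) < M := by exact_mod_cast hM
  have key : ∀ P : {P : Set ℤ // P.Nonempty ∧ (∃ x ∈ W M β, starts x = P) ∧ rep T P = P},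
      ∃ q : ℕ, 0 < q ∧ (∀ s : ℤ, sh (s * T) P.1 = P.1 ↔ (q : ℤ) ∣ s) ∧
        Nonempty (Fam M (q * T) (FP M β P.1)) := by
    rintro ⟨P, hPne, ⟨x, hx, hxP⟩, -⟩
    obtain ⟨r, hr⟩ := hTM
    have hr0 : 0 < r := by
      rcases Nat.eq_zero_or_pos r with h | h
      · subst h; omega
      · exact h
    have hPM : Per M P := by rw [← hxP]; exact hx.1.starts
    have h1 : sh ((r : ℤ) * T) P = P := by
      rw [sh_eq_iff_per]
      have : (M : ℤ) = r * T := by rw [hr]; push_cast; ring
      rw [← this]; exact hPM
    obtain ⟨q, hq0, hq⟩ := exists_q P T r (by exact_mod_cast hr0) h1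
    have hqr : q ∣ r := by exact_mod_cast (hq r).1 h1
    refine ⟨q, hq0, hq, ?_⟩
    refine fam_fiber hM (Nat.mul_pos hq0 hT) ?_ ?_ hPne ?_ ?_ ⟨x, hx, hxP⟩ IH
    · rw [hr, mul_comm T r]
      exact Nat.mul_dvd_mul_right hqr T
    · have := (hq q).2 dvd_rfl
      push_cast
      exact this
    · intro c hc
      have hc' : c ∈ starts x := by rw [hxP]; exact hc
      exact hx.2 c hc'.1 hc'.2
    · intro c hc hc1
      have hc' : c ∈ starts x := by rw [hxP]; exact hc
      have hc1' : c - 1 ∈ starts x := by rw [hxP]; exact hc1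
      exact hc'.2 hc1'.1
  choose q hq0 hq hfam using key
  have G := fun P => (hfam P).some
  have hcast : ∀ P (s : ℤ), s * ((q P * T : ℕ) : ℤ) = (s * q P) * T := by
    intro P s; push_cast; ring
  have hstab : ∀ P (i : (G P).ι) (j : ℕ), (G P).a i ≤ j → j ≤ (G P).b i → ∀ s t : ℤ,
      sh (s * T) ((G P).f i j) = sh (t * T) ((G P).f i j) → (q P : ℤ) ∣ s - t := by
    intro P i j h1 h2 s t h
    have h3 := ((G P).hmem i j h1 h2).2
    have h4 := congrArg starts h
    rw [starts_sh, starts_sh, h3] at h4
    apply (hq P _).1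
    apply sh_inj (s := t * T)
    rw [sh_sh, ← h4]
    congr 1; ring
  refine ⟨{ ι := Σ P, (G P).ι, a := fun p => (G p.1).a p.2, b := fun p => (G p.1).b p.2,
            f := fun p j => (G p.1).f p.2 j,
            hab := fun p => (G p.1).hab p.2, hsum := fun p => (G p.1).hsum p.2,
            hmem := ?_, hrk := fun p => (G p.1).hrk p.2, hsub := fun p => (G p.1).hsub p.2,
            hint := ?_, hend := ?_, huniq := ?_ }⟩
  · rintro ⟨P, i⟩ j h1 h2
    have h3 := (G P).hmem i j h1 h2
    refine ⟨h3.1, ?_, ?_⟩
    · intro h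
      obtain ⟨c, hc⟩ := P.2.1
      have h4 := h3.2
      simp only at h
      rw [h] at h4
      rw [← h4] at hc
      exact hc.1
    · intro h
      obtain ⟨c, hc⟩ := P.2.1
      have h4 := h3.2
      simp only at h
      rw [h] at h4
      rw [← h4] at hc
      exact hc.2 trivial
  · rintro ⟨P, i⟩ j h1 h2 s hs
    simp only at h1 h2 hs
    have h3 := hstab P i j h1.le h2.le s 0 (by rw [hs]; simp [sh_zero])
    rw [sub_zero] at h3
    obtain ⟨k, hk⟩ := h3
    have h4 := (G P).hint i j h1 h2 k (by
      rw [hcast, ← show s = k * q P by rw [hk]; ring]; exact hs)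
    rw [hcast, ← show s = k * q P by rw [hk]; ring] at h4
    exact h4
  · rintro ⟨P, i⟩ s
    simp only
    constructor
    · intro hs
      have h3 := hstab P i _ le_rfl ((G P).hab i) s 0 (by rw [hs]; simp [sh_zero])
      rw [sub_zero] at h3
      obtain ⟨k, hk⟩ := h3
      have h4 := (G P).hend i k
      rw [hcast, ← show s = k * q P by rw [hk]; ring] at h4
      exact h4.1 hs
    · intro hs
      have h3 := hstab P i _ ((G P).hab i) le_rfl s 0 (by rw [hs]; simp [sh_zero])
      rw [sub_zero] at h3
      obtain ⟨k, hk⟩ := h3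
      have h4 := (G P).hend i k
      rw [hcast, ← show s = k * q P by rw [hk]; ring] at h4
      exact h4.2 hs
  · intro x hx
    obtain ⟨s0, hs0⟩ := rep_rel T (starts x)
    set P := rep T (starts x) with hP
    set x' := sh (-s0 * T) x with hx'
    have hxx' : x = sh (s0 * T) x' := by
      rw [hx', sh_sh, show s0 * (T : ℤ) + -s0 * T = 0 by ring, sh_zero]
    have hx'W : x' ∈ W M β := W_sh hβ hx.1 _
    have hx'P : starts x' = P := by
      rw [hx', starts_sh, hs0, sh_sh, show -s0 * (T : ℤ) + s0 * T = 0 by ring, sh_zero]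
    have hPne : P.Nonempty := by
      obtain ⟨c, hc⟩ := starts_nonempty_of hM hx
      rw [hs0, mem_sh] at hc
      exact ⟨_, hc⟩
    let p0 : {P : Set ℤ // P.Nonempty ∧ (∃ x ∈ W M β, starts x = P) ∧ rep T P = P} :=
      ⟨P, hPne, ⟨x', hx'W, hx'P⟩, rep_rep T _⟩
    have hrk : rk M x' = rk M x := rk_sh hMz hx.1.1 _
    obtain ⟨i, ⟨h1, h2, s, h3⟩, h4⟩ := (G p0).huniq x' ⟨hx'W, hx'P⟩
    rw [hrk] at h1 h2 h3
    refine ⟨⟨p0, i⟩, ⟨h1, h2, s0 + s * q p0, ?_⟩, ?_⟩
    · conv_lhs => rw [hxx', h3, sh_sh, hcast]
      congr 1; ring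
    · rintro ⟨p, i'⟩ ⟨h5, h6, t, h7⟩
      simp only at h5 h6 h7
      have h8 : starts x = sh (t * T) p.1 := by
        have := ((G p).hmem i' _ h5 h6).2
        rw [h7, starts_sh, this]
      have h9 : p = p0 := by
        apply Subtype.ext
        have h10 := rep_eq T t h8
        rw [p.2.2.2] at h10
        exact h10.symm
      subst h9
      have h11 : x' = sh ((t - s0) * T) ((G p0).f i' (rk M x)) := by
        rw [hx']
        conv_lhs => rw [h7]
        rw [sh_sh]; congr 1; ring
      have h12 : (q p0 : ℤ) ∣ t - s0 := by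
        apply (hq p0 _).1
        have := ((G p0).hmem i' _ h5 h6).2
        have h13 : starts x' = sh ((t - s0) * T) p0.1 := by
          rw [h11, starts_sh, this]
        rw [hx'P] at h13
        exact h13.symm
      obtain ⟨k, hk⟩ := h12
      have h14 := h4 i' ⟨by rw [hrk]; exact h5, by rw [hrk]; exact h6, k, by
        rw [hrk, hcast, ← show t - s0 = k * q p0 by rw [hk]; ring]; exact h11⟩
      rw [h14]

theorem fam_one {β : Set ℤ} : Nonempty (Fam 1 1 (W 1 β)) := by
  have hcases : ∀ x : Set ℤ, Per (1 : ℕ) x → x = ∅ ∨ x = Set.univ := by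
    intro x hx
    by_cases h : x = ∅
    · exact Or.inl h
    right
    obtain ⟨c, hc⟩ := Set.nonempty_iff_ne_empty.2 h
    apply Set.eq_univ_of_forall
    intro d
    have h1 := hx.mul (d - c) c
    rw [show c + (d - c) * ((1 : ℕ) : ℤ) = d by push_cast; ring] at h1
    exact h1.2 hc
  refine ⟨{ ι := Unit, a := fun _ => 0, b := fun _ => 1,
            f := fun _ j => if j = 0 then ∅ else Set.univ,
            hab := fun _ => by omega, hsum := fun _ => rfl, hmem := ?_, hrk := ?_, hsub := ?_,
            hint := fun _ j h1 h2 => by omega, hend := ?_, huniq := ?_ }⟩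
  · intro _ j h1 h2
    rcases Nat.eq_zero_or_pos j with h | h
    · simp only [h, if_true]
      exact ⟨fun c => by simp, fun c hc => absurd hc (by simp)⟩
    · simp only [h.ne', if_false]
      exact ⟨fun c => by simp, fun c _ hc => absurd trivial hc⟩
  · intro _ j h1 h2
    rcases Nat.eq_zero_or_pos j with h | h
    · simp only [h, if_true]
      exact rk_empty _
    · simp only [h.ne', if_false]
      rw [rk_univ]; omega
  · intro _ j h1 h2
    simp [show j = 0 by omega]
  · intro _ s
    simp only [if_true, one_ne_zero, if_false]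
    constructor
    · intro _; ext c; simp [mem_sh]
    · intro _; ext c; simp [mem_sh]
  · intro x hx
    refine ⟨(), ⟨Nat.zero_le _, ?_, 0, ?_⟩, fun _ _ => rfl⟩
    · rcases hcases x hx.1 with h | h
      · subst h; rw [rk_empty]; omega
      · subst h; rw [rk_univ]
    · rcases hcases x hx.1 with h | h
      · subst h; simp [rk_empty, sh_zero]
      · subst h
        have h1 : rk ((1 : ℕ) : ℤ) Set.univ = 1 := rk_univ
        rw [h1]; simp [sh_zero]

theorem exists_fam (M : ℕ) : ∀ (T : ℕ) (β : Set ℤ), 0 < M → 0 < T → T ∣ M → Per T β →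
    β.Nonempty → Nonempty (Fam M T (W M β)) := by
  induction M using Nat.strong_induction_on with
  | _ M IH =>
    intro T β hM hT hTM hβ hβne
    rcases Nat.lt_or_ge 1 M with hM2 | hM1
    swap
    · have h1 : M = 1 := by omega
      subst h1
      have h2 : T = 1 := Nat.dvd_one.1 hTM
      subst h2
      exact fam_one
    have hMz : (0 : ℤ) < M := by exact_mod_cast hM
    obtain ⟨G⟩ := fam_nonextreme hM hT hTM hβ
      (fun M' T' β' h1 h2 h3 h4 h5 h6 => IH M' h2 T' β' h1 h3 h4 h5 h6)
    have hβM : Per M β := hβ.dvd (by exact_mod_cast hTM)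
    -- the word with a single start
    obtain ⟨c0, hc0⟩ := hβne
    set x1 : Set ℤ := {c | (M : ℤ) ∣ c - c0} with hx1
    have hx1per : Per M x1 := by
      intro c
      simp only [hx1, Set.mem_ofPred_eq]
      rw [show c + (M : ℤ) - c0 = c - c0 + M by ring]
      exact dvd_add_self_right
    have hx1W : x1 ∈ W M β := by
      refine ⟨hx1per, fun c hc _ => ?_⟩
      obtain ⟨k, hk⟩ := hc
      have := (hβM.mul k c0).2 hc0
      rwa [show c0 + k * (M : ℤ) = c by linarith] at this
    have hx1rk : rk M x1 = 1 := by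
      rw [← win_eq hMz hx1per c0, Set.ncard_eq_one]
      refine ⟨c0, ?_⟩
      ext c
      simp only [hx1, Set.mem_inter_iff, Set.mem_ofPred_eq, Set.mem_Ico, Set.mem_singleton_iff]
      constructor
      · rintro ⟨⟨k, hk⟩, h2, h3⟩
        have h4 : 0 ≤ k := by
          by_contra h
          have : k ≤ -1 := by omega
          nlinarith
        have h5 : k < 1 := by
          by_contra h
          have : 1 ≤ k := by omega
          nlinarith
        have h6 : k = 0 := by omega
        subst h6
        omega
      · rintro rfl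
        exact ⟨by simp, le_rfl, by omega⟩
    have hx1NE : x1 ∈ NE M β := by
      refine ⟨hx1W, ?_, ?_⟩
      · intro h; rw [h, rk_empty] at hx1rk; omega
      · intro h; rw [h, rk_univ] at hx1rk; omega
    have hpos : ∀ i, 0 < G.a i := by
      intro i
      have h1 := G.hmem i _ le_rfl (G.hab i)
      have h2 := G.hrk i _ le_rfl (G.hab i)
      have h3 := rk_pos hMz h1.1.1 (Set.nonempty_iff_ne_empty.2 h1.2.1)
      omega
    obtain ⟨i0, ⟨hi1, hi2, -⟩, -⟩ := G.huniq x1 hx1NE
    rw [hx1rk] at hi1 hi2
    have ha0 : G.a i0 = 1 := by have := hpos i0; omega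
    have hb0 : G.b i0 = M - 1 := by have := G.hsum i0; omega
    have hNErk : ∀ x ∈ NE M β, 0 < rk M x ∧ rk M x < M := fun x hx =>
      ⟨rk_pos hMz hx.1.1 (Set.nonempty_iff_ne_empty.2 hx.2.1), rk_lt hM hx.1.1 hx.2.2⟩
    have hemp : (∅ : Set ℤ) ∈ W M β := ⟨fun c => by simp, fun c hc => absurd hc (by simp)⟩
    have huni : (Set.univ : Set ℤ) ∈ W M β := ⟨fun c => by simp, fun c _ hc => absurd trivial hc⟩
    classical
    refine ⟨{ ι := G.ι, a := fun i => if i = i0 then 0 else G.a i,
              b := fun i => if i = i0 then M else G.b i,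
              f := fun i j => if i = i0 ∧ j = 0 then ∅ else
                if i = i0 ∧ j = M then Set.univ else G.f i j,
              hab := ?_, hsum := ?_, hmem := ?_, hrk := ?_, hsub := ?_, hint := ?_, hend := ?_,
              huniq := ?_ }⟩
    · intro i
      by_cases h : i = i0
      · simp [h]
      · simp [h, G.hab i]
    · intro i
      by_cases h : i = i0
      · simp [h]
      · simp [h, G.hsum i]
    · intro i j h1 h2
      by_cases h : i = i0
      · subst h
        simp only [if_true, true_and] at h1 h2 ⊢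
        by_cases hj0 : j = 0
        · simp only [hj0, if_true]; exact hemp
        · by_cases hjM : j = M
          · simp only [hj0, hjM, if_true, if_false, hM.ne']; exact huni
          · simp only [hj0, hjM, if_false]
            exact (G.hmem i j (by omega) (by omega)).1
      · simp only [h, if_false, false_and] at h1 h2 ⊢
        exact (G.hmem i j h1 h2).1
    · intro i j h1 h2
      by_cases h : i = i0
      · subst h
        simp only [if_true, true_and] at h1 h2 ⊢
        by_cases hj0 : j = 0
        · simp only [hj0, if_true]; exact rk_empty _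
        · by_cases hjM : j = M
          · simp only [hj0, hjM, if_true, if_false, hM.ne']; exact rk_univ
          · simp only [hj0, hjM, if_false]
            exact G.hrk i j (by omega) (by omega)
      · simp only [h, if_false, false_and] at h1 h2 ⊢
        exact G.hrk i j h1 h2
    · intro i j h1 h2
      by_cases h : i = i0
      · subst h
        simp only [if_true, true_and] at h1 h2 ⊢
        by_cases hj0 : j = 0
        · simp only [hj0, if_true]; exact Set.empty_subset _
        · by_cases hjM : j + 1 = M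
          · simp only [hjM, hM.ne', if_true, if_false]; exact Set.subset_univ _
          · simp only [hj0, hjM, if_false, show j ≠ M by omega, Nat.succ_ne_zero]
            exact G.hsub i j (by omega) (by omega)
      · simp only [h, if_false, false_and] at h1 h2 ⊢
        exact G.hsub i j h1 h2
    · intro i j h1 h2 s hs
      by_cases h : i = i0
      · subst h
        simp only [if_true, true_and] at h1 h2 hs
        rw [if_neg (by omega), if_neg (by omega)] at hs
        by_cases hj1 : j = 1
        · subst hj1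
          exact per_dvd_of_rk_one hMz (G.hmem i 1 (by omega) (by omega)).1.1
            (G.hrk i 1 (by omega) (by omega)) hs
        · by_cases hjM : j = M - 1
          · have h3 : sh (s * T) (G.f i (G.b i)) = G.f i (G.b i) := by rw [hb0, ← hjM]; exact hs
            have h4 := (G.hend i s).2 h3
            rw [ha0] at h4
            exact per_dvd_of_rk_one hMz (G.hmem i 1 (by omega) (by omega)).1.1
              (G.hrk i 1 (by omega) (by omega)) h4
          · exact G.hint i j (by omega) (by omega) s hs
      · simp only [h, if_false, false_and] at h1 h2 hs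
        exact G.hint i j h1 h2 s hs
    · intro i s
      by_cases h : i = i0
      · subst h
        simp only [if_true, true_and, hM.ne', if_false]
        constructor
        · intro _; ext c; simp [mem_sh]
        · intro _; ext c; simp [mem_sh]
      · simp only [h, if_false, false_and]
        exact G.hend i s
    · intro x hx
      by_cases hxe : x = ∅
      · subst hxe
        refine ⟨i0, ⟨by simp, by simp [rk_empty], 0, by simp [rk_empty, sh_zero]⟩, ?_⟩
        rintro i ⟨h1, -, -⟩
        by_contra h
        simp only [h, if_false, rk_empty] at h1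
        have := hpos i
        omega
      by_cases hxu : x = Set.univ
      · subst hxu
        refine ⟨i0, ⟨by simp, by simp [rk_univ], 0, by simp [rk_univ, sh_zero, hM.ne']⟩, ?_⟩
        rintro i ⟨-, h1, -⟩
        by_contra h
        simp only [h, if_false, rk_univ] at h1
        have := hpos i
        have := G.hsum i
        omega
      have hxNE : x ∈ NE M β := ⟨hx, hxe, hxu⟩
      obtain ⟨hr1, hr2⟩ := hNErk x hxNE
      obtain ⟨i, ⟨h1, h2, s, h3⟩, h4⟩ := G.huniq x hxNE
      refine ⟨i, ⟨?_, ?_, s, ?_⟩, ?_⟩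
      · by_cases h : i = i0
        · simp [h]
        · simp [h, h1]
      · by_cases h : i = i0
        · simp [h, hr2.le]
        · simp [h, h2]
      · rw [if_neg (by omega), if_neg (by omega)]; exact h3
      · rintro i' ⟨h5, h6, t, h7⟩
        rw [if_neg (by omega), if_neg (by omega)] at h7
        apply h4
        by_cases h : i' = i0
        · subst h
          exact ⟨by omega, by omega, t, h7⟩
        · simp only [h, if_false] at h5 h6
          exact ⟨h5, h6, t, h7⟩

end Pool.Agent.Helper47.Cyc
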