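import Pool.Agent.Helper47.Cyc.Orbit
import Pool.Agent.Helper36.Cyc.PacketA
import Pool.Agent.Helper79.Cyc.NT

/-!
# Periods, positions, and the level sets of the labels on an orbit
-/

namespace Pool.Agent.Helper47.Cyc

set_option linter.unusedSectionVars false

variable {α : Type} [Fintype α] [DecidableEq α]

theorem exists_per (σ : Equiv.Perm α) (S : Finset α) :
    ∃ q : ℕ, 0 < q ∧ ∀ s : ℤ, ac (σ ^ s) S = S ↔ (q : ℤ) ∣ s := by
  let H : AddSubgroup ℤ :=
    { carrier := {s | ac (σ ^ s) S = S}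
      zero_mem' := ac_zpow_zero σ S
      add_mem' := by
        intro a b ha hb
        simp only [Set.mem_ofPred_eq] at *
        rw [ac_zpow_add, hb, ha]
      neg_mem' := by
        intro a ha
        simp only [Set.mem_ofPred_eq] at *
        apply ac_inj (g := σ ^ a)
        rw [← ac_zpow_add, ha, add_neg_cancel, ac_zpow_zero] }
  obtain ⟨a, ha⟩ := Int.subgroup_cyclic H
  have hmem : ∀ s : ℤ, ac (σ ^ s) S = S ↔ ∃ n : ℤ, n • a = s := by
    intro s
    have : s ∈ H ↔ s ∈ AddSubgroup.closure {a} := by rw [ha]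
    rw [AddSubgroup.mem_closure_singleton] at this
    exact this
  have ha0 : a ≠ 0 := by
    rintro rfl
    have h1 : ac (σ ^ ((orderOf σ : ℕ) : ℤ)) S = S := by
      rw [zpow_natCast, pow_orderOf_eq_one, ac_one]
    obtain ⟨n, hn⟩ := (hmem _).1 h1
    have := orderOf_pos σ
    simp at hn
    omega
  refine ⟨a.natAbs, Int.natAbs_pos.2 ha0, fun s => ?_⟩
  rw [hmem, Int.natAbs_dvd]
  constructor
  · rintro ⟨n, hn⟩
    exact ⟨n, by rw [← hn]; simp [mul_comm]⟩
  · rintro ⟨n, hn⟩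
    exact ⟨n, by rw [hn]; simp [mul_comm]⟩

/-- the period of `S` -/
noncomputable def per (σ : Equiv.Perm α) (S : Finset α) : ℕ := (exists_per σ S).choose

theorem per_pos (σ : Equiv.Perm α) (S : Finset α) : 0 < per σ S := (exists_per σ S).choose_spec.1

theorem per_iff {σ : Equiv.Perm α} {S : Finset α} (s : ℤ) :
    ac (σ ^ s) S = S ↔ (per σ S : ℤ) ∣ s := (exists_per σ S).choose_spec.2 s

theorem per_ac (σ : Equiv.Perm α) (S : Finset α) (s : ℤ) : per σ (ac (σ ^ s) S) = per σ S := by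
  have h : ∀ t : ℤ, ac (σ ^ t) (ac (σ ^ s) S) = ac (σ ^ s) S ↔ ac (σ ^ t) S = S := by
    intro t
    rw [← ac_zpow_add, add_comm, ac_zpow_add]
    exact ⟨fun h => ac_inj h, fun h => by rw [h]⟩
  apply Nat.dvd_antisymm
  · have := (h (per σ S)).2 ((per_iff _).2 dvd_rfl)
    rw [per_iff] at this
    exact_mod_cast this
  · have := (h (per σ (ac (σ ^ s) S))).1 ((per_iff _).2 dvd_rfl)
    rw [per_iff] at this
    exact_mod_cast this

theorem ac_eq_iff {σ : Equiv.Perm α} {S : Finset α} (s t : ℤ) :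
    ac (σ ^ s) S = ac (σ ^ t) S ↔ (per σ S : ℤ) ∣ s - t := by
  rw [← per_iff]
  constructor
  · intro h
    apply ac_inj (g := σ ^ t)
    rw [← ac_zpow_add, ← h]
    congr 2; ring
  · intro h
    conv_rhs => rw [← h]
    rw [← ac_zpow_add]
    congr 2; ring

section Orbit

variable {σ : Equiv.Perm α} {O : Finset α}

theorem pos_uniq (G : OFam σ O) {S : Finset α} (hS : S ⊆ O) {i i' : G.ι} {s s' : ℤ}
    (h1 : G.a i ≤ S.card) (h2 : S.card ≤ G.b i) (h3 : S = ac (σ ^ s) (G.f i S.card))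
    (h1' : G.a i' ≤ S.card) (h2' : S.card ≤ G.b i') (h3' : S = ac (σ ^ s') (G.f i' S.card)) :
    i = i' ∧ (per σ S : ℤ) ∣ s - s' := by
  obtain ⟨i0, -, hi0⟩ := G.huniq S hS
  have h4 := hi0 i ⟨h1, h2, s, h3⟩
  have h5 := hi0 i' ⟨h1', h2', s', h3'⟩
  have h6 : i = i' := by rw [h4, h5]
  subst h6
  refine ⟨rfl, ?_⟩
  have h7 : per σ S = per σ (G.f i S.card) := by
    conv_lhs => rw [h3]
    rw [per_ac]
  rw [h7, ← ac_eq_iff, ← h3, ← h3']

theorem exists_pos (G : OFam σ O) {S : Finset α} (hS : S ⊆ O) :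
    ∃ l : ℕ, l < per σ S ∧ ∃ i : G.ι, G.a i ≤ S.card ∧ S.card ≤ G.b i ∧
      S = ac (σ ^ (l : ℤ)) (G.f i S.card) := by
  obtain ⟨i, ⟨h1, h2, s, h3⟩, -⟩ := G.huniq S hS
  have hp := per_pos σ S
  have hp' : (0 : ℤ) < per σ S := by exact_mod_cast hp
  have h7 : per σ S = per σ (G.f i S.card) := by
    conv_lhs => rw [h3]
    rw [per_ac]
  have h4 := Int.emod_nonneg s hp'.ne'
  have h5 := Int.emod_lt_of_pos s hp'
  refine ⟨(s % per σ S).toNat, by omega, i, h1, h2, ?_⟩
  rw [Int.toNat_of_nonneg h4]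
  conv_lhs => rw [h3]
  rw [ac_eq_iff, ← h7]
  have := Int.emod_add_mul_ediv s (per σ S)
  exact ⟨s / per σ S, by linarith⟩

open Classical in
/-- the position of `S` in its orbit -/
noncomputable def pos (G : OFam σ O) (S : Finset α) : ℕ :=
  if h : S ⊆ O then (exists_pos G h).choose else 0

theorem pos_spec (G : OFam σ O) {S : Finset α} (hS : S ⊆ O) :
    pos G S < per σ S ∧ ∃ i : G.ι, G.a i ≤ S.card ∧ S.card ≤ G.b i ∧
      S = ac (σ ^ (pos G S : ℤ)) (G.f i S.card) := by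
  rw [pos, dif_pos hS]
  exact (exists_pos G hS).choose_spec

theorem pos_eq (G : OFam σ O) {S : Finset α} (hS : S ⊆ O) {i : G.ι} {l : ℕ}
    (h1 : G.a i ≤ S.card) (h2 : S.card ≤ G.b i) (h3 : S = ac (σ ^ (l : ℤ)) (G.f i S.card))
    (hl : l < per σ S) : pos G S = l := by
  obtain ⟨h4, i', h5, h6, h7⟩ := pos_spec G hS
  obtain ⟨-, h8⟩ := pos_uniq G hS h1 h2 h3 h5 h6 h7
  obtain ⟨k, hk⟩ := h8
  have hp := per_pos σ S
  have h9 : -1 < k := by
    by_contra h
    have : k ≤ -1 := by omega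
    have : (per σ S : ℤ) * k ≤ per σ S * (-1) := by
      apply mul_le_mul_of_nonneg_left this (by omega)
    omega
  have h10 : k < 1 := by
    by_contra h
    have : 1 ≤ k := by omega
    have : (per σ S : ℤ) * 1 ≤ per σ S * k := by
      apply mul_le_mul_of_nonneg_left this (by omega)
    omega
  have h11 : k = 0 := by omega
  subst h11
  omega

theorem pos_modEq (G : OFam σ O) {S : Finset α} (hS : S ⊆ O) {i : G.ι} {s : ℤ}
    (h1 : G.a i ≤ S.card) (h2 : S.card ≤ G.b i) (h3 : S = ac (σ ^ s) (G.f i S.card)) :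
    (per σ S : ℤ) ∣ s - pos G S := by
  obtain ⟨h4, i', h5, h6, h7⟩ := pos_spec G hS
  exact (pos_uniq G hS h1 h2 h3 h5 h6 h7).2

variable (hO : ∀ S ⊆ O, ac (σ ^ (O.card : ℤ)) S = S)

include hO

theorem per_dvd_card {S : Finset α} (hS : S ⊆ O) : per σ S ∣ O.card := by
  have := (per_iff _).1 (hO S hS)
  exact_mod_cast this

theorem per_interior (G : OFam σ O) {i : G.ι} {j : ℕ} (h1 : G.a i < j) (h2 : j < G.b i) :
    per σ (G.f i j) = O.card := by
  apply Nat.dvd_antisymm
  · exact per_dvd_card hO (G.hmem i j h1.le h2.le)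
  · have := G.hint i j h1 h2 (per σ (G.f i j)) ((per_iff _).2 dvd_rfl)
    exact_mod_cast this

omit hO in
theorem per_end (G : OFam σ O) (i : G.ι) : per σ (G.f i (G.b i)) = per σ (G.f i (G.a i)) := by
  apply Nat.dvd_antisymm
  · have := (G.hend i (per σ (G.f i (G.a i)))).1 ((per_iff _).2 dvd_rfl)
    rw [per_iff] at this
    exact_mod_cast this
  · have := (G.hend i (per σ (G.f i (G.b i)))).2 ((per_iff _).2 dvd_rfl)
    rw [per_iff] at this
    exact_mod_cast this

/-- The level sets of the combined labels have symmetric chain decompositions. -/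
theorem level_scd (G : OFam σ O) (h0 : 0 < O.card) (hinv : Inv σ O) (f e : ℕ → ℕ) :
    HasSCD O.card {S : Finset α | S ⊆ O ∧ Lam (per σ S) (pos G S) f = e} := by
  classical
  have hk : ∀ i : G.ι, per σ (G.f i (G.a i)) ∣ O.card := fun i =>
    per_dvd_card hO (G.hmem i _ le_rfl (G.hab i))
  have hsec : ∀ (i : G.ι) (l : ℕ), ∃ l', l < per σ (G.f i (G.a i)) →
      l' < O.card ∧ l' ≡ l [MOD per σ (G.f i (G.a i))] ∧
        Lam O.card l' f = Lam (per σ (G.f i (G.a i))) l f := by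
    intro i l
    by_cases h : l < per σ (G.f i (G.a i))
    · obtain ⟨l', h1, h2, h3⟩ := nt_lift h0 (hk i) h f
      exact ⟨l', fun _ => ⟨h1, h2, h3⟩⟩
    · exact ⟨0, fun h' => absurd h' h⟩
  choose sec hsec using hsec
  have hsub : ∀ (s : ℤ) {S : Finset α}, S ⊆ O → ac (σ ^ s) S ⊆ O := by
    intro s S hS
    have := ac_subset (g := σ ^ s) hS
    rwa [hinv.zpow] at this
  have hend' : ∀ (i : G.ι) (j : ℕ), G.a i ≤ j → j ≤ G.b i → ¬ (G.a i < j ∧ j < G.b i) →
      per σ (G.f i j) = per σ (G.f i (G.a i)) := by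
    intro i j h1 h2 h3
    rcases Nat.eq_or_lt_of_le h1 with h4 | h4
    · rw [h4]
    · have h5 : j = G.b i := by
        by_contra h6
        exact h3 ⟨h4, by omega⟩
      rw [h5]
      exact per_end G i
  let piece : G.ι × ℕ → Set (Finset α) := fun p =>
    {S | p.2 < O.card ∧ Lam O.card p.2 f = e ∧ ∃ j, G.a p.1 ≤ j ∧ j ≤ G.b p.1 ∧
      S = ac (σ ^ (p.2 : ℤ)) (G.f p.1 j) ∧
      ((G.a p.1 < j ∧ j < G.b p.1) ∨ ∃ l < per σ (G.f p.1 (G.a p.1)), sec p.1 l = p.2)}
  -- the data of an element of a piece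
  have hpiece : ∀ p S, S ∈ piece p → S ⊆ O ∧ G.a p.1 ≤ S.card ∧ S.card ≤ G.b p.1 ∧
      S = ac (σ ^ (p.2 : ℤ)) (G.f p.1 S.card) := by
    rintro ⟨i, l'⟩ S ⟨-, -, j, h1, h2, h3, -⟩
    have h4 : S.card = j := by rw [h3, ac_card, G.hrk i j h1 h2]
    refine ⟨?_, by rw [h4]; exact h1, by rw [h4]; exact h2, by rw [h4]; exact h3⟩
    rw [h3]; exact hsub _ (G.hmem i j h1 h2)
  have hpos_int : ∀ (i : G.ι) (l' : ℕ) (S : Finset α), S ⊆ O → l' < O.card →
      G.a i < S.card → S.card < G.b i → S = ac (σ ^ (l' : ℤ)) (G.f i S.card) →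
      per σ S = O.card ∧ pos G S = l' := by
    intro i l' S hS hl h1 h2 h3
    have h4 : per σ S = O.card := by
      conv_lhs => rw [h3]
      rw [per_ac, per_interior hO G h1 h2]
    exact ⟨h4, pos_eq G hS h1.le h2.le h3 (by rw [h4]; exact hl)⟩
  have hpos_end : ∀ (i : G.ι) (l : ℕ) (S : Finset α), S ⊆ O → l < per σ (G.f i (G.a i)) →
      G.a i ≤ S.card → S.card ≤ G.b i → ¬ (G.a i < S.card ∧ S.card < G.b i) →
      S = ac (σ ^ (sec i l : ℤ)) (G.f i S.card) →
      per σ S = per σ (G.f i (G.a i)) ∧ pos G S = l := by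
    intro i l S hS hl h1 h2 h3 h4
    have h5 : per σ S = per σ (G.f i (G.a i)) := by
      conv_lhs => rw [h4]
      rw [per_ac, hend' i _ h1 h2 h3]
    refine ⟨h5, pos_eq G hS h1 h2 ?_ (by rw [h5]; exact hl)⟩
    conv_lhs => rw [h4]
    rw [ac_eq_iff, hend' i _ h1 h2 h3]
    have := (hsec i l hl).2.1
    exact (Nat.modEq_iff_dvd.1 this.symm)
  have hunion : {S : Finset α | S ⊆ O ∧ Lam (per σ S) (pos G S) f = e} = ⋃ p, piece p := by
    ext S
    simp only [Set.mem_iUnion, Set.mem_ofPred_eq]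
    constructor
    · rintro ⟨hS, he⟩
      obtain ⟨h1, i, h2, h3, h4⟩ := pos_spec G hS
      by_cases hint : G.a i < S.card ∧ S.card < G.b i
      · have h5 : per σ S = O.card := by
          conv_lhs => rw [h4]
          rw [per_ac, per_interior hO G hint.1 hint.2]
        rw [h5] at he h1
        exact ⟨(i, pos G S), h1, he, S.card, h2, h3, h4, Or.inl hint⟩
      · have h5 : per σ S = per σ (G.f i (G.a i)) := by
          conv_lhs => rw [h4]
          rw [per_ac, hend' i _ h2 h3 hint]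
        rw [h5] at he h1
        obtain ⟨h6, h7, h8⟩ := hsec i _ h1
        refine ⟨(i, sec i (pos G S)), h6, by rw [h8]; exact he, S.card, h2, h3, ?_,
          Or.inr ⟨pos G S, h1, rfl⟩⟩
        conv_lhs => rw [h4]
        rw [ac_eq_iff, hend' i _ h2 h3 hint]
        exact (Nat.modEq_iff_dvd.1 h7)
    · rintro ⟨⟨i, l'⟩, hp⟩
      obtain ⟨hS, h1, h2, h3⟩ := hpiece _ _ hp
      obtain ⟨h4, h5, j, h6, h7, h8, h9⟩ := hp
      simp only at h1 h2 h3 h4 h5 h6 h7 h8 h9
      have hj : S.card = j := by rw [h8, ac_card, G.hrk i j h6 h7]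
      refine ⟨hS, ?_⟩
      by_cases hint : G.a i < S.card ∧ S.card < G.b i
      · obtain ⟨h10, h11⟩ := hpos_int i l' S hS h4 hint.1 hint.2 h3
        rw [h10, h11]; exact h5
      · rcases h9 with h9 | ⟨l, hl, rfl⟩
        · exact absurd (by rw [hj]; exact h9) hint
        · obtain ⟨h10, h11⟩ := hpos_end i l S hS hl h1 h2 hint h3
          rw [h10, h11, ← (hsec i l hl).2.2]; exact h5
  rw [hunion]
  refine HasSCD.iUnion ?_ ?_
  · rintro ⟨i, l'⟩
    by_cases h1 : l' < O.card ∧ Lam O.card l' f = e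
    swap
    · have : piece (i, l') = ∅ := by
        rw [Set.eq_empty_iff_forall_notMem]
        rintro S ⟨h2, h3, -⟩
        exact h1 ⟨h2, h3⟩
      rw [this]; exact HasSCD.empty _
    by_cases h2 : ∃ l < per σ (G.f i (G.a i)), sec i l = l'
    · apply IsCh.hasSCD
      refine ⟨G.a i, G.b i, fun j => ac (σ ^ (l' : ℤ)) (G.f i j), G.hab i, G.hsum i, ?_, ?_, ?_⟩
      · intro j h3 h4
        rw [ac_card, G.hrk i j h3 h4]
      · intro j h3 h4
        exact ac_subset (G.hsub i j h3 h4)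
      · ext S
        constructor
        · rintro ⟨-, -, j, h3, h4, h5, -⟩
          exact ⟨j, ⟨h3, h4⟩, h5.symm⟩
        · rintro ⟨j, ⟨h3, h4⟩, h5⟩
          exact ⟨h1.1, h1.2, j, h3, h4, h5.symm, Or.inr h2⟩
    · by_cases h3 : G.a i + 2 ≤ G.b i
      · apply IsCh.hasSCD
        refine ⟨G.a i + 1, G.b i - 1, fun j => ac (σ ^ (l' : ℤ)) (G.f i j), by omega,
          by have := G.hsum i; omega, ?_, ?_, ?_⟩
        · intro j h4 h5
          rw [ac_card, G.hrk i j (by omega) (by omega)]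
        · intro j h4 h5
          exact ac_subset (G.hsub i j (by omega) (by omega))
        · ext S
          constructor
          · rintro ⟨-, -, j, h4, h5, h6, h7⟩
            rcases h7 with h7 | h7
            · simp only at h7
              exact ⟨j, ⟨by omega, by omega⟩, h6.symm⟩
            · exact absurd h7 h2
          · rintro ⟨j, ⟨h4, h5⟩, h6⟩
            exact ⟨h1.1, h1.2, j, by simp only; omega, by simp only; omega, h6.symm,
              Or.inl ⟨by simp only; omega, by simp only; omega⟩⟩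
      · have : piece (i, l') = ∅ := by
          rw [Set.eq_empty_iff_forall_notMem]
          rintro S ⟨-, -, j, h4, h5, h6, h7⟩
          rcases h7 with h7 | h7
          · simp only at h7; omega
          · exact h2 h7
        rw [this]; exact HasSCD.empty _
  · rintro ⟨i, l'⟩ ⟨i2, l2⟩ hne
    rw [Set.disjoint_left]
    intro S hS1 hS2
    obtain ⟨hS, h1, h2, h3⟩ := hpiece _ _ hS1
    obtain ⟨-, h1', h2', h3'⟩ := hpiece _ _ hS2
    simp only at h1 h2 h3 h1' h2' h3'
    obtain ⟨hii, -⟩ := pos_uniq G hS h1 h2 h3 h1' h2' h3'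
    subst hii
    apply hne
    obtain ⟨h4, h5, j, h6, h7, h8, h9⟩ := hS1
    obtain ⟨h4', h5', j', h6', h7', h8', h9'⟩ := hS2
    simp only at h4 h5 h6 h7 h8 h9 h4' h5' h6' h7' h8' h9'
    have hj : S.card = j := by rw [h8, ac_card, G.hrk i j h6 h7]
    have hj' : S.card = j' := by rw [h8', ac_card, G.hrk i j' h6' h7']
    by_cases hint : G.a i < S.card ∧ S.card < G.b i
    · have h10 := (hpos_int i l' S hS h4 hint.1 hint.2 h3).2
      have h11 := (hpos_int i l2 S hS h4' hint.1 hint.2 h3').2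
      rw [← h10, ← h11]
    · rcases h9 with h9 | ⟨l, hl, rfl⟩
      · exact absurd (by rw [hj]; exact h9) hint
      rcases h9' with h9' | ⟨m, hm, rfl⟩
      · exact absurd (by rw [hj']; exact h9') hint
      have h10 := (hpos_end i l S hS hl h1 h2 hint h3).2
      have h11 := (hpos_end i m S hS hm h1 h2 hint h3').2
      rw [← h10, ← h11]

end Orbit

end Pool.Agent.Helper47.Cyc
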