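import Pool.Agent.Helper47.Cyc.Defs
import Pool.Agent.Helper47.Cyc.Good

/-!
# Good families of subsets of an orbit
-/

namespace Pool.Agent.Helper47.Cyc

set_option linter.unusedSectionVars false

variable {α : Type} [DecidableEq α]

/-- action of a permutation on finite sets -/
def ac (g : Equiv.Perm α) (S : Finset α) : Finset α := S.map (Equiv.toEmbedding g)

theorem mem_ac {g : Equiv.Perm α} {S : Finset α} {y : α} : y ∈ ac g S ↔ g⁻¹ y ∈ S := by
  simp only [ac, Finset.mem_map_equiv]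
  rfl

theorem apply_mem_ac {g : Equiv.Perm α} {S : Finset α} {y : α} : g y ∈ ac g S ↔ y ∈ S := by
  rw [mem_ac]; simp

theorem ac_one (S : Finset α) : ac 1 S = S := by ext y; simp [mem_ac]

theorem ac_mul (g h : Equiv.Perm α) (S : Finset α) : ac (g * h) S = ac g (ac h S) := by
  ext y; simp [mem_ac, mul_inv_rev]

theorem ac_card (g : Equiv.Perm α) (S : Finset α) : (ac g S).card = S.card := by simp [ac]

theorem ac_subset {g : Equiv.Perm α} {S T : Finset α} (h : S ⊆ T) : ac g S ⊆ ac g T :=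
  Finset.map_subset_map.2 h

theorem ac_inj {g : Equiv.Perm α} {S T : Finset α} (h : ac g S = ac g T) : S = T :=
  Finset.map_injective _ h

theorem ac_inter (g : Equiv.Perm α) (S T : Finset α) : ac g (S ∩ T) = ac g S ∩ ac g T := by
  ext y; simp [mem_ac]

theorem ac_union (g : Equiv.Perm α) (S T : Finset α) : ac g (S ∪ T) = ac g S ∪ ac g T := by
  ext y; simp [mem_ac]

theorem ac_zpow_add (σ : Equiv.Perm α) (s t : ℤ) (S : Finset α) :
    ac (σ ^ (s + t)) S = ac (σ ^ s) (ac (σ ^ t) S) := by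
  rw [zpow_add, ac_mul]

theorem ac_zpow_zero (σ : Equiv.Perm α) (S : Finset α) : ac (σ ^ (0 : ℤ)) S = S := by
  rw [zpow_zero, ac_one]

/-- `A` is invariant under `σ` -/
def Inv (σ : Equiv.Perm α) (A : Finset α) : Prop := ac σ A = A

theorem Inv.zpow {σ : Equiv.Perm α} {A : Finset α} (h : Inv σ A) (s : ℤ) : ac (σ ^ s) A = A := by
  induction s using Int.induction_on with
  | zero => exact ac_zpow_zero σ A
  | succ k ih => rw [ac_zpow_add, zpow_one, show ac σ A = A from h, ih]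
  | pred k ih =>
    apply ac_inj (g := σ ^ (1 : ℤ))
    rw [← ac_zpow_add, show (1 : ℤ) + (-(k : ℤ) - 1) = -k by ring, ih, zpow_one]
    exact h.symm

/-- A good transversal family of symmetric chains for the subsets of `O`. -/
structure OFam (σ : Equiv.Perm α) (O : Finset α) where
  ι : Type
  a : ι → ℕ
  b : ι → ℕ
  f : ι → ℕ → Finset α
  hab : ∀ i, a i ≤ b i
  hsum : ∀ i, a i + b i = O.card
  hmem : ∀ i j, a i ≤ j → j ≤ b i → f i j ⊆ O
  hrk : ∀ i j, a i ≤ j → j ≤ b i → (f i j).card = j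
  hsub : ∀ i j, a i ≤ j → j < b i → f i j ⊆ f i (j + 1)
  hint : ∀ i j, a i < j → j < b i → ∀ s : ℤ, ac (σ ^ s) (f i j) = f i j → (O.card : ℤ) ∣ s
  hend : ∀ i (s : ℤ), ac (σ ^ s) (f i (a i)) = f i (a i) ↔ ac (σ ^ s) (f i (b i)) = f i (b i)
  huniq : ∀ S ⊆ O, ∃! i, a i ≤ S.card ∧ S.card ≤ b i ∧ ∃ s : ℤ, S = ac (σ ^ s) (f i S.card)

section Model

variable {σ : Equiv.Perm α} {O : Finset α} {x0 : α}

open Classical in
/-- the subset of the orbit of `x0` described by a set of exponents -/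
noncomputable def toF (σ : Equiv.Perm α) (O : Finset α) (x0 : α) (x : Set ℤ) : Finset α :=
  O.filter fun y => ∃ c ∈ x, (σ ^ c) x0 = y

theorem mem_toF (hO : ∀ y, y ∈ O ↔ ∃ s : ℤ, (σ ^ s) x0 = y)
    (hper : ∀ s : ℤ, (σ ^ s) x0 = x0 ↔ (O.card : ℤ) ∣ s) {x : Set ℤ} (hx : Per O.card x) (c : ℤ) :
    (σ ^ c) x0 ∈ toF σ O x0 x ↔ c ∈ x := by
  classical
  rw [toF, Finset.mem_filter, hO]
  constructor
  · rintro ⟨-, d, hd, hdc⟩
    have h1 : (σ ^ (-d + c)) x0 = x0 := by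
      rw [zpow_add, Equiv.Perm.mul_apply, ← hdc, zpow_neg, Equiv.Perm.inv_def, Equiv.symm_apply_apply]
    have h2 := (hx.dvd ((hper _).1 h1)) d
    rw [show d + (-d + c) = c by ring] at h2
    exact h2.2 hd
  · intro hc
    exact ⟨⟨c, rfl⟩, c, hc, rfl⟩

theorem toF_subset (x : Set ℤ) : toF σ O x0 x ⊆ O := by
  classical
  exact Finset.filter_subset _ _

theorem toF_mono {x y : Set ℤ} (h : x ⊆ y) : toF σ O x0 x ⊆ toF σ O x0 y := by
  classical
  intro z hz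
  rw [toF, Finset.mem_filter] at hz ⊢
  obtain ⟨h1, c, hc, hc'⟩ := hz
  exact ⟨h1, c, h hc, hc'⟩

theorem toF_inj (hO : ∀ y, y ∈ O ↔ ∃ s : ℤ, (σ ^ s) x0 = y)
    (hper : ∀ s : ℤ, (σ ^ s) x0 = x0 ↔ (O.card : ℤ) ∣ s) {x y : Set ℤ} (hx : Per O.card x)
    (hy : Per O.card y) (h : toF σ O x0 x = toF σ O x0 y) : x = y := by
  ext c
  rw [← mem_toF hO hper hx, ← mem_toF hO hper hy, h]

theorem eq_pow_mod (hper : ∀ s : ℤ, (σ ^ s) x0 = x0 ↔ (O.card : ℤ) ∣ s) (c : ℤ) :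
    (σ ^ (c % O.card)) x0 = (σ ^ c) x0 := by
  have h1 : (σ ^ (-(c % O.card) + c)) x0 = x0 := by
    rw [hper]
    have := Int.emod_add_mul_ediv c O.card
    exact ⟨c / O.card, by linarith⟩
  rw [zpow_add, Equiv.Perm.mul_apply, zpow_neg, Equiv.Perm.inv_eq_iff_eq] at h1
  exact h1.symm

theorem toF_card (hO : ∀ y, y ∈ O ↔ ∃ s : ℤ, (σ ^ s) x0 = y)
    (hper : ∀ s : ℤ, (σ ^ s) x0 = x0 ↔ (O.card : ℤ) ∣ s) (h0 : 0 < O.card) {x : Set ℤ}
    (hx : Per O.card x) : (toF σ O x0 x).card = rk O.card x := by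
  classical
  have h0z : (0 : ℤ) < O.card := by exact_mod_cast h0
  have h1 : ((toF σ O x0 x : Finset α) : Set α) =
      (fun c : ℤ => (σ ^ c) x0) '' (x ∩ Set.Ico 0 (O.card : ℤ)) := by
    ext y
    constructor
    · intro hy
      have hy' : y ∈ toF σ O x0 x := hy
      obtain ⟨c, rfl⟩ := (hO y).1 (toF_subset x hy')
      rw [mem_toF hO hper hx] at hy'
      refine ⟨c % O.card, ⟨?_, Int.emod_nonneg _ h0z.ne', Int.emod_lt_of_pos _ h0z⟩,
        eq_pow_mod hper c⟩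
      rw [← mem_toF hO hper hx, eq_pow_mod hper, mem_toF hO hper hx]
      exact hy'
    · rintro ⟨c, ⟨hc, -⟩, rfl⟩
      show (σ ^ c) x0 ∈ toF σ O x0 x
      rw [mem_toF hO hper hx]
      exact hc
  rw [← Set.ncard_coe_finset, h1, Set.InjOn.ncard_image, rk]
  rintro c ⟨-, hc⟩ d ⟨-, hd⟩ hcd
  simp only at hcd
  have h2 : (σ ^ (-d + c)) x0 = x0 := by
    rw [zpow_add, Equiv.Perm.mul_apply, hcd, zpow_neg, Equiv.Perm.inv_def, Equiv.symm_apply_apply]
  rw [hper] at h2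
  obtain ⟨k, hk⟩ := h2
  simp only [Set.mem_Ico] at hc hd
  have h4 : -1 < k := by
    by_contra h
    have : k ≤ -1 := by omega
    nlinarith
  have h5 : k < 1 := by
    by_contra h
    have : 1 ≤ k := by omega
    nlinarith
  have h6 : k = 0 := by omega
  subst h6
  omega

theorem ac_toF (hO : ∀ y, y ∈ O ↔ ∃ s : ℤ, (σ ^ s) x0 = y)
    (hper : ∀ s : ℤ, (σ ^ s) x0 = x0 ↔ (O.card : ℤ) ∣ s) {x : Set ℤ}
    (hx : Per O.card x) (s : ℤ) : ac (σ ^ s) (toF σ O x0 x) = toF σ O x0 (sh s x) := by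
  ext y
  rw [mem_ac]
  constructor
  · intro hy
    obtain ⟨c, hc⟩ := (hO _).1 (toF_subset x hy)
    rw [← hc, mem_toF hO hper hx] at hy
    have : y = (σ ^ (s + c)) x0 := by
      rw [zpow_add, Equiv.Perm.mul_apply, hc, Equiv.Perm.inv_def, Equiv.apply_symm_apply]
    rw [this, mem_toF hO hper (hx.sh s), mem_sh]
    simpa using hy
  · intro hy
    obtain ⟨c, rfl⟩ := (hO _).1 (toF_subset _ hy)
    rw [mem_toF hO hper (hx.sh s), mem_sh] at hy
    have : (σ ^ s)⁻¹ ((σ ^ c) x0) = (σ ^ (c - s)) x0 := by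
      rw [Equiv.Perm.inv_eq_iff_eq, ← Equiv.Perm.mul_apply, ← zpow_add]
      congr 2; ring
    rw [this, mem_toF hO hper hx]
    exact hy

theorem exists_toF (hO : ∀ y, y ∈ O ↔ ∃ s : ℤ, (σ ^ s) x0 = y)
    (hper : ∀ s : ℤ, (σ ^ s) x0 = x0 ↔ (O.card : ℤ) ∣ s) {S : Finset α} (hS : S ⊆ O) :
    ∃ x : Set ℤ, Per O.card x ∧ toF σ O x0 x = S := by
  have hx : Per O.card {c : ℤ | (σ ^ c) x0 ∈ S} := by
    intro c
    simp only [Set.mem_ofPred_eq]
    rw [zpow_add, Equiv.Perm.mul_apply, (hper _).2 dvd_rfl]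
  refine ⟨_, hx, ?_⟩
  ext y
  constructor
  · intro hy
    obtain ⟨c, rfl⟩ := (hO _).1 (toF_subset _ hy)
    rw [mem_toF hO hper hx] at hy
    exact hy
  · intro hy
    obtain ⟨c, rfl⟩ := (hO _).1 (hS hy)
    rw [mem_toF hO hper hx]
    exact hy

theorem exists_ofam (hO : ∀ y, y ∈ O ↔ ∃ s : ℤ, (σ ^ s) x0 = y)
    (hper : ∀ s : ℤ, (σ ^ s) x0 = x0 ↔ (O.card : ℤ) ∣ s) (h0 : 0 < O.card) :
    Nonempty (OFam σ O) := by
  obtain ⟨G⟩ := exists_fam O.card 1 Set.univ h0 one_pos (one_dvd _) (fun c => by simp) ⟨0, trivial⟩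
  have hp : ∀ i j, G.a i ≤ j → j ≤ G.b i → Per O.card (G.f i j) :=
    fun i j h1 h2 => (G.hmem i j h1 h2).1
  refine ⟨{ ι := G.ι, a := G.a, b := G.b, f := fun i j => toF σ O x0 (G.f i j),
            hab := G.hab, hsum := G.hsum, hmem := fun i j _ _ => toF_subset _,
            hrk := ?_, hsub := fun i j h1 h2 => toF_mono (G.hsub i j h1 h2), hint := ?_,
            hend := ?_, huniq := ?_ }⟩
  · intro i j h1 h2
    rw [toF_card hO hper h0 (hp i j h1 h2), G.hrk i j h1 h2]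
  · intro i j h1 h2 s hs
    rw [ac_toF hO hper (hp i j h1.le h2.le)] at hs
    have h3 := toF_inj hO hper ((hp i j h1.le h2.le).sh s) (hp i j h1.le h2.le) hs
    have h4 := G.hint i j h1 h2 s (by simpa using h3)
    simpa using h4
  · intro i s
    have ha := hp i _ le_rfl (G.hab i)
    have hb := hp i _ (G.hab i) le_rfl
    have h5 := G.hend i s
    simp only [Nat.cast_one, mul_one] at h5
    rw [ac_toF hO hper ha, ac_toF hO hper hb]
    constructor
    · intro h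
      rw [h5.1 (toF_inj hO hper (ha.sh s) ha h)]
    · intro h
      rw [h5.2 (toF_inj hO hper (hb.sh s) hb h)]
  · intro S hS
    obtain ⟨x, hx, rfl⟩ := exists_toF hO hper hS
    have hxW : x ∈ W O.card Set.univ := ⟨hx, fun _ _ _ => trivial⟩
    have hc : (toF σ O x0 x).card = rk O.card x := toF_card hO hper h0 hx
    obtain ⟨i, ⟨h1, h2, s, h3⟩, h4⟩ := G.huniq x hxW
    refine ⟨i, ⟨by rw [hc]; exact h1, by rw [hc]; exact h2, s, ?_⟩, ?_⟩
    · rw [hc, ac_toF hO hper (hp i _ h1 h2)]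
      conv_lhs => rw [h3]
      simp
    · rintro i' ⟨h5, h6, t, h7⟩
      rw [hc] at h5 h6 h7
      rw [ac_toF hO hper (hp i' _ h5 h6)] at h7
      apply h4
      refine ⟨h5, h6, t, ?_⟩
      have := toF_inj hO hper hx ((hp i' _ h5 h6).sh t) h7
      simpa using this

end Model

end Pool.Agent.Helper47.Cyc
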