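import Pool.Agent.Helper47.Cyc.Words

/-!
# Good symmetric chain decompositions of periodic words: the recursion
-/

namespace Pool.Agent.Helper47.Cyc

/-- words with bars `β` -/
def W (M : ℕ) (β : Set ℤ) : Set (Set ℤ) := {x | Per M x ∧ ∀ c ∈ x, c - 1 ∉ x → c ∈ β}

/-- starts of runs -/
def starts (x : Set ℤ) : Set ℤ := {c | c ∈ x ∧ c - 1 ∉ x}

/-- A good transversal family of chains for the words in `F` under shifts by multiples of `T`. -/
structure Fam (M T : ℕ) (F : Set (Set ℤ)) where
  ι : Type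
  a : ι → ℕ
  b : ι → ℕ
  f : ι → ℕ → Set ℤ
  hab : ∀ i, a i ≤ b i
  hsum : ∀ i, a i + b i = M
  hmem : ∀ i j, a i ≤ j → j ≤ b i → f i j ∈ F
  hrk : ∀ i j, a i ≤ j → j ≤ b i → rk M (f i j) = j
  hsub : ∀ i j, a i ≤ j → j < b i → f i j ⊆ f i (j + 1)
  hint : ∀ i j, a i < j → j < b i → ∀ s : ℤ, sh (s * T) (f i j) = f i j → (M : ℤ) ∣ s * T
  hend : ∀ i (s : ℤ), sh (s * T) (f i (a i)) = f i (a i) ↔ sh (s * T) (f i (b i)) = f i (b i)
  huniq : ∀ x ∈ F, ∃! i, a i ≤ rk M x ∧ rk M x ≤ b i ∧ ∃ s : ℤ, x = sh (s * T) (f i (rk M x))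

theorem starts_sh (s : ℤ) (x : Set ℤ) : starts (sh s x) = sh s (starts x) := by
  ext c
  simp only [starts, mem_sh, Set.mem_ofPred_eq]
  rw [show c - 1 - s = c - s - 1 by ring]

theorem Per.starts {M : ℤ} {x : Set ℤ} (h : Per M x) : Per M (Cyc.starts x) := by
  rw [← sh_eq_iff_per, ← starts_sh, sh_eq_iff_per.2 h]

theorem starts_empty {M : ℤ} (hM : 0 < M) {x : Set ℤ} (h : Per M x) (hs : starts x = ∅) :
    x = ∅ ∨ x = Set.univ := by
  by_cases hx : x = Set.univ
  · exact Or.inr hx
  left
  have : ∃ c, c ∉ x := by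
    by_contra hcon
    push Not at hcon
    exact hx (Set.eq_univ_of_forall hcon)
  obtain ⟨c, hc⟩ := this
  have h1 : ∀ n : ℕ, c + n ∉ x := by
    intro n
    induction n with
    | zero => simpa using hc
    | succ n ih =>
      intro hcon
      have : c + (n + 1 : ℕ) ∈ starts x := by
        refine ⟨hcon, ?_⟩
        rw [show c + ((n + 1 : ℕ) : ℤ) - 1 = c + n by push_cast; ring]
        exact ih
      rw [hs] at this
      exact this
  rw [Set.eq_empty_iff_forall_notMem]
  intro d hd
  have h2 : d + (|c - d|) * M ∈ x := (h.mul _ d).2 hd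
  have h3 : c ≤ d + (|c - d|) * M := by
    have : |c - d| ≤ |c - d| * M := by nlinarith [abs_nonneg (c - d)]
    have := le_abs_self (c - d)
    omega
  have h4 := h1 (d + (|c - d|) * M - c).toNat
  rw [Int.toNat_of_nonneg (by omega)] at h4
  apply h4
  rw [show c + (d + |c - d| * M - c) = d + |c - d| * M by ring]
  exact h2

theorem exists_q (P : Set ℤ) (T r : ℤ) (hr : 0 < r) (h : sh (r * T) P = P) :
    ∃ q : ℕ, 0 < q ∧ ∀ s : ℤ, sh (s * T) P = P ↔ (q : ℤ) ∣ s := by
  let H : AddSubgroup ℤ :=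
    { carrier := {s | sh (s * T) P = P}
      zero_mem' := by simp [sh_zero]
      add_mem' := by
        intro a b ha hb
        simp only [Set.mem_ofPred_eq] at *
        rw [add_mul, ← sh_sh, hb, ha]
      neg_mem' := by
        intro a ha
        simp only [Set.mem_ofPred_eq] at *
        apply sh_inj (s := a * T)
        rw [sh_sh, ha, show a * T + -a * T = 0 by ring, sh_zero] }
  obtain ⟨a, ha⟩ := Int.subgroup_cyclic H
  have hmem : ∀ s : ℤ, sh (s * T) P = P ↔ ∃ n : ℤ, n • a = s := by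
    intro s
    have : s ∈ H ↔ s ∈ AddSubgroup.closure {a} := by rw [ha]
    rw [AddSubgroup.mem_closure_singleton] at this
    exact this
  have ha0 : a ≠ 0 := by
    rintro rfl
    obtain ⟨n, hn⟩ := (hmem r).1 h
    simp at hn
    omega
  refine ⟨a.natAbs, Int.natAbs_pos.2 ha0, fun s => ?_⟩
  rw [hmem, Int.natAbs_dvd]
  constructor
  · rintro ⟨n, hn⟩
    exact ⟨n, by rw [← hn]; simp [mul_comm]⟩
  · rintro ⟨n, hn⟩
    exact ⟨n, by rw [hn]; simp [mul_comm]⟩

theorem per_dvd_of_rk_one {M s : ℤ} (hM : 0 < M) {x : Set ℤ} (h : Per M x) (hr : rk M x = 1)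
    (hs : sh s x = x) : M ∣ s := by
  have hs' := sh_eq_iff_per.1 hs
  have hne : x.Nonempty := by
    by_contra hcon
    rw [Set.not_nonempty_iff_eq_empty] at hcon
    rw [hcon, rk_empty] at hr
    omega
  obtain ⟨c, hc⟩ := hne
  rw [← win_eq hM h c, Set.ncard_eq_one] at hr
  obtain ⟨d, hd⟩ := hr
  have h1 : c ∈ x ∩ Set.Ico c (c + M) := ⟨hc, by simp [hM]⟩
  have h2 : c + s % M ∈ x ∩ Set.Ico c (c + M) := by
    refine ⟨?_, ?_⟩
    · rw [← h.mul (s / M)]
      rw [show c + s % M + s / M * M = c + s by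
        have := Int.emod_add_mul_ediv s M
        linarith]
      exact (hs' c).2 hc
    · have h3 := Int.emod_nonneg s hM.ne'
      have h4 := Int.emod_lt_of_pos s hM
      simp only [Set.mem_Ico]
      constructor <;> omega
  rw [hd] at h1 h2
  simp only [Set.mem_singleton_iff] at h1 h2
  have : s % M = 0 := by omega
  exact Int.dvd_of_emod_eq_zero this

/-! ### Transport of a family through the enumeration of the remaining cells -/

section Transport

variable {M : ℕ} {β P U : Set ℤ} {e : ℤ → ℤ} {M' : ℕ}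

/-- the remaining cells -/
def rest (P : Set ℤ) : Set ℤ := {c | c ∉ P ∧ c + 1 ∉ P}

/-- put the pairs back -/
def up (P : Set ℤ) (e : ℤ → ℤ) (y : Set ℤ) : Set ℤ := P ∪ e '' y

/-- new bars -/
def bars (P : Set ℤ) (e : ℤ → ℤ) : Set ℤ := {j | e j - 1 ∉ rest P}

theorem pred_eq (he : StrictMono e) {j k : ℤ} (h : e k = e j - 1) : k = j - 1 := by
  have h1 : k < j := he.lt_iff_lt.1 (by omega)
  by_contra hne
  have h2 : k < j - 1 := by omega
  have h3 := he h2
  have h4 : e (j - 1) < e j := he (by omega)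
  omega

theorem up_mem (he : StrictMono e) (hr : Set.range e = rest P) (hM' : ∀ j, e (j + M') = e j + M)
    (hPM : Per M P) (hPβ : P ⊆ β) (hPP : ∀ c ∈ P, c - 1 ∉ P) {y : Set ℤ}
    (hy : y ∈ W M' (bars P e)) : up P e y ∈ W M β ∧ starts (up P e y) = P := by
  have hstart : starts (up P e y) = P := by
    ext c
    constructor
    · rintro ⟨h1, h2⟩
      by_contra hcP
      rcases h1 with h1 | ⟨j, hj, rfl⟩
      · exact hcP h1
      · have h3 : e j - 1 ∉ P := fun h => h2 (Or.inl h)
        have h4 : e j - 1 ∈ rest P := ⟨h3, by rw [sub_add_cancel]; exact hcP⟩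
        have h5 := h4
        rw [← hr] at h5
        obtain ⟨k, hk⟩ := h5
        have hk' := pred_eq he hk
        subst hk'
        have h6 : j - 1 ∉ y := fun h => h2 (Or.inr ⟨j - 1, h, hk⟩)
        exact hy.2 j hj h6 h4
    · intro hc
      refine ⟨Or.inl hc, ?_⟩
      rintro (h | ⟨j, hj, hj'⟩)
      · exact hPP c hc h
      · have : e j ∈ rest P := by rw [← hr]; exact ⟨j, rfl⟩
        rw [hj'] at this
        exact this.2 (by rw [sub_add_cancel]; exact hc)
  refine ⟨⟨?_, ?_⟩, hstart⟩
  · intro c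
    constructor
    · rintro (h | ⟨j, hj, hj'⟩)
      · exact Or.inl ((hPM c).1 h)
      · refine Or.inr ⟨j - M', ?_, ?_⟩
        · rw [← hy.1 (j - M'), sub_add_cancel]; exact hj
        · have := hM' (j - M')
          rw [sub_add_cancel] at this
          omega
    · rintro (h | ⟨j, hj, hj'⟩)
      · exact Or.inl ((hPM c).2 h)
      · exact Or.inr ⟨j + M', (hy.1 j).2 hj, by rw [hM', hj']⟩
  · intro c hc hc'
    apply hPβ
    rw [← hstart]
    exact ⟨hc, hc'⟩

theorem up_surj (he : StrictMono e) (hr : Set.range e = rest P) (hM' : ∀ j, e (j + M') = e j + M)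
    {x : Set ℤ} (hx : x ∈ W M β) (hs : starts x = P) :
    e ⁻¹' x ∈ W M' (bars P e) ∧ up P e (e ⁻¹' x) = x := by
  refine ⟨⟨?_, ?_⟩, ?_⟩
  · intro j
    simp only [Set.mem_preimage]
    rw [hM']; exact hx.1 _
  · intro j hj hj' hcon
    rw [← hr] at hcon
    obtain ⟨k, hk⟩ := hcon
    have hk' := pred_eq he hk
    subst hk'
    have h1 : e j ∈ starts x := ⟨hj, by rw [← hk]; exact hj'⟩
    rw [hs] at h1
    have h2 : e j ∈ rest P := by rw [← hr]; exact ⟨j, rfl⟩
    exact h2.1 h1
  · ext c
    constructor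
    · rintro (h | ⟨j, hj, rfl⟩)
      · rw [← hs] at h; exact h.1
      · exact hj
    · intro hc
      by_cases hcr : c ∈ rest P
      · rw [← hr] at hcr
        obtain ⟨j, rfl⟩ := hcr
        exact Or.inr ⟨j, hc, rfl⟩
      · left
        by_contra hcP
        apply hcr
        refine ⟨hcP, fun h => ?_⟩
        rw [← hs] at h
        exact h.2 (by simpa using hc)

theorem up_inj (he : StrictMono e) (hr : Set.range e = rest P) {y z : Set ℤ}
    (h : up P e y = up P e z) : y = z := by
  have key : ∀ {y z : Set ℤ}, up P e y = up P e z → y ⊆ z := by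
    intro y z h j hj
    have h1 : e j ∈ up P e z := by rw [← h]; exact Or.inr ⟨j, hj, rfl⟩
    rcases h1 with h1 | ⟨k, hk, hk'⟩
    · have : e j ∈ rest P := by rw [← hr]; exact ⟨j, rfl⟩
      exact absurd h1 this.1
    · rwa [← he.injective hk']
  exact Set.Subset.antisymm (key h) (key h.symm)

theorem up_sh {s s' : ℤ} (hs : sh s P = P) (hs' : ∀ j, e (j + s') = e j + s)
    (y : Set ℤ) : sh s (up P e y) = up P e (sh s' y) := by
  ext c
  rw [mem_sh]
  constructor
  · rintro (h | ⟨j, hj, hj'⟩)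
    · left
      rw [← hs]; exact h
    · refine Or.inr ⟨j + s', by rw [mem_sh]; simpa using hj, by rw [hs', hj']; ring⟩
  · rintro (h | ⟨j, hj, hj'⟩)
    · left
      rw [← hs] at h; exact h
    · refine Or.inr ⟨j - s', hj, ?_⟩
      have := hs' (j - s')
      rw [sub_add_cancel] at this
      omega

theorem up_rk (hM : 0 < M) (hM'0 : 0 < M') (he : StrictMono e) (hr : Set.range e = rest P)
    (hM' : ∀ j, e (j + M') = e j + M) (hPM : Per M P) {y : Set ℤ} (hy : Per M' y) :
    rk M (up P e y) = rk M' y + rk M P := by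
  have hMz : (0 : ℤ) < M := by exact_mod_cast hM
  have hMz' : (0 : ℤ) < M' := by exact_mod_cast hM'0
  have hper : Per M (up P e y) := by
    intro c
    constructor
    · rintro (h | ⟨j, hj, hj'⟩)
      · exact Or.inl ((hPM c).1 h)
      · refine Or.inr ⟨j - M', ?_, ?_⟩
        · rw [← hy (j - M'), sub_add_cancel]; exact hj
        · have := hM' (j - M')
          rw [sub_add_cancel] at this
          omega
    · rintro (h | ⟨j, hj, hj'⟩)
      · exact Or.inl ((hPM c).2 h)
      · exact Or.inr ⟨j + M', (hy j).2 hj, by rw [hM', hj']⟩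
  rw [← win_eq hMz hper (e 0), ← win_eq hMz hPM (e 0)]
  have h0 : e M' = e 0 + M := by have := hM' 0; rwa [zero_add] at this
  have h1 : up P e y ∩ Set.Ico (e 0) (e 0 + M) =
      (e '' (y ∩ Set.Ico 0 (M' : ℤ))) ∪ (P ∩ Set.Ico (e 0) (e 0 + M)) := by
    ext c
    constructor
    · rintro ⟨h | ⟨j, hj, rfl⟩, h2⟩
      · exact Or.inr ⟨h, h2⟩
      · left
        refine ⟨j, ⟨hj, ?_⟩, rfl⟩
        rw [← h0] at h2
        exact ⟨he.le_iff_le.1 h2.1, he.lt_iff_lt.1 h2.2⟩
    · rintro (⟨j, ⟨hj, hj'⟩, rfl⟩ | ⟨h1, h2⟩)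
      · refine ⟨Or.inr ⟨j, hj, rfl⟩, ?_⟩
        rw [← h0]
        exact ⟨he.le_iff_le.2 hj'.1, he.lt_iff_lt.2 hj'.2⟩
      · exact ⟨Or.inl h1, h2⟩
  rw [h1, Set.ncard_union_eq]
  · rw [Set.ncard_image_of_injective _ he.injective, rk]
  · rw [Set.disjoint_left]
    rintro _ ⟨j, _, rfl⟩ ⟨h2, _⟩
    have : e j ∈ rest P := by rw [← hr]; exact ⟨j, rfl⟩
    exact this.1 h2

theorem count_cells (hM : 0 < M) (hM'0 : 0 < M') (he : StrictMono e) (hr : Set.range e = rest P)
    (hM' : ∀ j, e (j + M') = e j + M) (hPM : Per M P) (hPP : ∀ c ∈ P, c - 1 ∉ P) :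
    M = M' + 2 * rk M P := by
  have hMz : (0 : ℤ) < M := by exact_mod_cast hM
  have h1 := up_rk hM hM'0 he hr hM' hPM (y := Set.univ) (fun c => by simp)
  rw [rk_univ] at h1
  have h2 : rk M (sh (-1) P) = rk M P := rk_sh hMz hPM (-1)
  have h3 : (Set.univ : Set ℤ) ∩ Set.Ico 0 (M : ℤ) =
      (up P e Set.univ ∩ Set.Ico 0 (M : ℤ)) ∪ (sh (-1) P ∩ Set.Ico 0 (M : ℤ)) := by
    rw [← Set.union_inter_distrib_right]
    congr 1
    symm
    apply Set.eq_univ_of_forall
    intro c
    by_cases hc : c ∈ rest P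
    · left; right
      rw [← hr] at hc
      obtain ⟨j, rfl⟩ := hc
      exact ⟨j, trivial, rfl⟩
    · by_cases hcP : c ∈ P
      · left; left; exact hcP
      · right
        rw [mem_sh]
        by_contra hcon
        exact hc ⟨hcP, by simpa using hcon⟩
  have h4 : rk M (Set.univ : Set ℤ) = rk M (up P e Set.univ) + rk M (sh (-1) P) := by
    unfold rk
    rw [h3, Set.ncard_union_eq]
    · rw [Set.disjoint_left]
      rintro c ⟨h5, _⟩ ⟨h6, _⟩
      rw [mem_sh] at h6
      rw [sub_neg_eq_add] at h6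
      rcases h5 with h5 | ⟨j, _, rfl⟩
      · exact hPP _ h6 (by simpa using h5)
      · have : e j ∈ rest P := by rw [← hr]; exact ⟨j, rfl⟩
        exact this.2 h6
  rw [rk_univ, h1, h2] at h4
  omega

theorem count_cells' (hM : 0 < M) (hr : rest P = ∅) (hPM : Per M P) (hPP : ∀ c ∈ P, c - 1 ∉ P) :
    M = 2 * rk M P := by
  have hMz : (0 : ℤ) < M := by exact_mod_cast hM
  have h2 : rk M (sh (-1) P) = rk M P := rk_sh hMz hPM (-1)
  have h3 : (Set.univ : Set ℤ) ∩ Set.Ico 0 (M : ℤ) =
      (P ∩ Set.Ico 0 (M : ℤ)) ∪ (sh (-1) P ∩ Set.Ico 0 (M : ℤ)) := by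
    rw [← Set.union_inter_distrib_right]
    congr 1
    symm
    apply Set.eq_univ_of_forall
    intro c
    by_cases hcP : c ∈ P
    · left; exact hcP
    · right
      rw [mem_sh]
      by_contra hcon
      have : c ∈ rest P := ⟨hcP, by simpa using hcon⟩
      rw [hr] at this
      exact this
  have h4 : rk M (Set.univ : Set ℤ) = rk M P + rk M (sh (-1) P) := by
    unfold rk
    rw [h3, Set.ncard_union_eq]
    · rw [Set.disjoint_left]
      rintro c ⟨h5, _⟩ ⟨h6, _⟩
      rw [mem_sh, sub_neg_eq_add] at h6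
      exact hPP _ h6 (by simpa using h5)
  rw [rk_univ, h2] at h4
  omega

end Transport

/-! ### The family for the words with a fixed set of run starts -/

/-- the words with run starts `P` -/
def FP (M : ℕ) (β P : Set ℤ) : Set (Set ℤ) := {x | x ∈ W M β ∧ starts x = P}

theorem fam_fiber_empty {M T : ℕ} {β P : Set ℤ} (hM : 0 < M) (hPM : Per M P)
    (hPP : ∀ c ∈ P, c - 1 ∉ P) (hr : rest P = ∅) (hx : ∃ x ∈ W M β, starts x = P) :
    Nonempty (Fam M T (FP M β P)) := by
  have hcount := count_cells' hM hr hPM hPP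
  have hxP : ∀ x, starts x = P → x = P := by
    intro x hx
    apply Set.Subset.antisymm
    · intro c hc
      by_contra hcP
      have h1 : c + 1 ∈ P := by
        by_contra h2
        have : c ∈ rest P := ⟨hcP, h2⟩
        rw [hr] at this
        exact this
      rw [← hx] at h1
      exact h1.2 (by simpa using hc)
    · rw [← hx]; exact fun c hc => hc.1
  obtain ⟨x0, hx0, hx0'⟩ := hx
  have h0 := hxP x0 hx0'
  subst h0
  refine ⟨{ ι := Unit, a := fun _ => rk M x0, b := fun _ => rk M x0, f := fun _ _ => x0,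
            hab := fun _ => le_rfl, hsum := fun _ => by omega,
            hmem := fun _ _ _ _ => ⟨hx0, hx0'⟩, hrk := fun _ j h1 h2 => by omega,
            hsub := fun _ _ _ _ => subset_rfl, hint := fun _ j h1 h2 => by omega,
            hend := fun _ _ => Iff.rfl, huniq := ?_ }⟩
  intro x hx
  have := hxP x hx.2
  subst this
  exact ⟨(), ⟨le_rfl, le_rfl, 0, by simp [sh_zero]⟩, fun _ _ => rfl⟩

theorem fam_fiber {M T : ℕ} {β P : Set ℤ} (hM : 0 < M) (hT : 0 < T) (hTM : T ∣ M)
    (hPT : sh T P = P) (hPne : P.Nonempty) (hPβ : P ⊆ β) (hPP : ∀ c ∈ P, c - 1 ∉ P)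
    (hx : ∃ x ∈ W M β, starts x = P)
    (IH : ∀ M' T' : ℕ, ∀ β' : Set ℤ, 0 < M' → M' < M → 0 < T' → T' ∣ M' → Per T' β' →
      β'.Nonempty → Nonempty (Fam M' T' (W M' β'))) :
    Nonempty (Fam M T (FP M β P)) := by
  have hMz : (0 : ℤ) < M := by exact_mod_cast hM
  have hTz : (0 : ℤ) < T := by exact_mod_cast hT
  have hPT' : Per T P := sh_eq_iff_per.1 hPT
  have hPM : Per M P := hPT'.dvd (by exact_mod_cast hTM)
  by_cases hr : rest P = ∅
  · exact fam_fiber_empty hM hPM hPP hr hx
  have hrne : (rest P).Nonempty := Set.nonempty_iff_ne_empty.2 hr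
  have hrPer : ∀ s : ℤ, Per s P → Per s (rest P) := by
    intro s hs c
    constructor
    · rintro ⟨h1, h2⟩
      refine ⟨fun h => h1 ((hs c).2 h), fun h => h2 ?_⟩
      rw [show c + s + 1 = c + 1 + s by ring]
      exact (hs _).2 h
    · rintro ⟨h1, h2⟩
      refine ⟨fun h => h1 ((hs c).1 h), fun h => h2 ?_⟩
      rw [show c + s + 1 = c + 1 + s by ring] at h
      exact (hs _).1 h
  obtain ⟨e, he, her⟩ := exists_enum hMz (hrPer M hPM) hrne
  obtain ⟨m, hm⟩ := exists_shift he (s := M) (by rw [her]; exact hrPer M hPM)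
  obtain ⟨t, ht⟩ := exists_shift he (s := T) (by rw [her]; exact hrPer T hPT')
  have hm0 : 0 < m := by
    have := hm 0
    rw [zero_add] at this
    exact he.lt_iff_lt.1 (by omega)
  have ht0 : 0 < t := by
    have := ht 0
    rw [zero_add] at this
    exact he.lt_iff_lt.1 (by omega)
  obtain ⟨M', rfl⟩ := Int.eq_ofNat_of_zero_le hm0.le
  obtain ⟨T', rfl⟩ := Int.eq_ofNat_of_zero_le ht0.le
  have hM'0 : 0 < M' := by exact_mod_cast hm0
  have hT'0 : 0 < T' := by exact_mod_cast ht0
  have hcount := count_cells hM hM'0 he her hm hPM hPP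
  have hp : 0 < rk M P := rk_pos hMz hPM hPne
  have hmulT : ∀ (k : ℤ) j, e (j + k * T') = e j + k * T := by
    intro k
    induction k using Int.induction_on with
    | zero => intro j; simp
    | succ k ih =>
      intro j
      rw [show j + ((k : ℤ) + 1) * T' = (j + k * T') + T' by ring, ht, ih]; ring
    | pred k ih =>
      intro j
      have h1 := ht (j + (-(k : ℤ) - 1) * T')
      rw [show j + (-(k : ℤ) - 1) * T' + T' = j + -(k : ℤ) * T' by ring, ih] at h1
      linarith
  have hmulM : ∀ (k : ℤ) j, e (j + k * M') = e j + k * M := by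
    intro k
    induction k using Int.induction_on with
    | zero => intro j; simp
    | succ k ih =>
      intro j
      rw [show j + ((k : ℤ) + 1) * M' = (j + k * M') + M' by ring, hm, ih]; ring
    | pred k ih =>
      intro j
      have h1 := hm (j + (-(k : ℤ) - 1) * M')
      rw [show j + (-(k : ℤ) - 1) * M' + M' = j + -(k : ℤ) * M' by ring, ih] at h1
      linarith
  have hT'M' : T' ∣ M' := by
    obtain ⟨r, hr'⟩ := hTM
    have h1 := hmulT r 0
    have h2 := hm 0
    have h3 : (M : ℤ) = r * T := by rw [hr']; push_cast; ring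
    rw [h3, ← h1] at h2
    have h4 := he.injective h2
    have h5 : (M' : ℤ) = r * T' := by linarith
    exact ⟨r, by have : M' = r * T' := by exact_mod_cast h5
                 rw [this, mul_comm]⟩
  have hβ'per : Per T' (bars P e) := by
    intro j
    have h1 : e (j + T') - 1 = (e j - 1) + T := by rw [ht]; ring
    simp only [bars, Set.mem_ofPred_eq]
    rw [h1, (hrPer T hPT') (e j - 1)]
  have hβ'ne : (bars P e).Nonempty := by
    by_contra hcon
    rw [Set.not_nonempty_iff_eq_empty] at hcon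
    have h1 : ∀ j, e j - 1 ∈ rest P := by
      intro j
      by_contra h2
      have : j ∈ bars P e := h2
      rw [hcon] at this
      exact this
    have h2 : ∀ (n : ℕ) (j : ℤ), e j - n ∈ rest P := by
      intro n
      induction n with
      | zero => intro j; rw [← her]; exact ⟨j, by simp⟩
      | succ n ih =>
        intro j
        have := ih j
        rw [← her] at this
        obtain ⟨k, hk⟩ := this
        have h3 := h1 k
        rw [hk] at h3
        rw [show e j - ((n + 1 : ℕ) : ℤ) = e j - n - 1 by push_cast; ring]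
        exact h3
    obtain ⟨c, hc⟩ := hPne
    have h3 := hmulM (|c - e 0|) 0
    have h4 : c ≤ e (0 + |c - e 0| * M') := by
      rw [h3]
      have : |c - e 0| ≤ |c - e 0| * M := by nlinarith [abs_nonneg (c - e 0)]
      have := le_abs_self (c - e 0)
      omega
    have h5 := h2 (e (0 + |c - e 0| * M') - c).toNat (0 + |c - e 0| * M')
    rw [Int.toNat_of_nonneg (by omega)] at h5
    have h6 : c ∈ rest P := by
      rw [show c = e (0 + |c - e 0| * M') - (e (0 + |c - e 0| * M') - c) by ring]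
      exact h5
    exact h6.1 hc
  obtain ⟨G⟩ := IH M' T' (bars P e) hM'0 (by omega) hT'0 hT'M' hβ'per hβ'ne
  have hGmem := G.hmem
  have hshs : ∀ s : ℤ, sh (s * T) P = P := fun s => sh_eq_iff_per.2 (hPT'.mul s)
  have hup : ∀ (s : ℤ) (y : Set ℤ), sh (s * T) (up P e y) = up P e (sh (s * T') y) :=
    fun s y => up_sh (hshs s) (hmulT s) y
  refine ⟨{ ι := G.ι, a := fun i => G.a i + rk M P, b := fun i => G.b i + rk M P,
            f := fun i j => up P e (G.f i (j - rk M P)),
            hab := fun i => by have := G.hab i; omega,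
            hsum := fun i => by have := G.hsum i; omega,
            hmem := ?_, hrk := ?_, hsub := ?_, hint := ?_, hend := ?_, huniq := ?_ }⟩
  · intro i j h1 h2
    exact up_mem he her hm hPM hPβ hPP (hGmem i _ (by omega) (by omega))
  · intro i j h1 h2
    rw [up_rk hM hM'0 he her hm hPM (hGmem i _ (by omega) (by omega)).1,
      G.hrk i _ (by omega) (by omega)]
    omega
  · intro i j h1 h2
    have h3 := G.hsub i (j - rk M P) (by omega) (by omega)
    rw [show j + 1 - rk M P = j - rk M P + 1 by omega]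
    exact Set.union_subset_union_right _ (Set.image_mono h3)
  · intro i j h1 h2 s hs
    rw [hup] at hs
    have h3 := up_inj he her hs
    have h4 := G.hint i (j - rk M P) (by omega) (by omega) s h3
    obtain ⟨k, hk⟩ := h4
    have h5 := hmulT s 0
    have h6 := hmulM k 0
    rw [show s * (T' : ℤ) = k * M' by rw [hk]; ring] at h5
    exact ⟨k, by linarith⟩
  · intro i s
    have h1 : G.a i + rk M P - rk M P = G.a i := by omega
    have h2 : G.b i + rk M P - rk M P = G.b i := by omega
    simp only [h1, h2]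
    rw [hup, hup]
    constructor
    · intro h
      rw [(G.hend i s).1 (up_inj he her h)]
    · intro h
      rw [(G.hend i s).2 (up_inj he her h)]
  · rintro x ⟨hx1, hx2⟩
    obtain ⟨hy1, hy2⟩ := up_surj he her hm hx1 hx2
    set y := e ⁻¹' x with hy
    have h1 : rk M x = rk M' y + rk M P := by
      rw [← hy2, up_rk hM hM'0 he her hm hPM hy1.1]
    obtain ⟨i, ⟨hi1, hi2, s, hs⟩, hi3⟩ := G.huniq y hy1
    refine ⟨i, ⟨by omega, by omega, s, ?_⟩, ?_⟩
    · rw [hup, show rk M x - rk M P = rk M' y by omega, ← hs, hy2]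
    · rintro i' ⟨h2, h3, s', h4⟩
      apply hi3
      refine ⟨by omega, by omega, s', ?_⟩
      rw [hup, show rk M x - rk M P = rk M' y by omega] at h4
      have h5 : up P e y = up P e (sh (s' * T') (G.f i' (rk M' y))) := by rw [hy2]; exact h4
      exact up_inj he her h5

end Pool.Agent.Helper47.Cyc
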