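import Mathlib

/-!
# Periodic words on `ℤ`: basic facts, enumeration of periodic subsets
-/

namespace Pool.Agent.Helper47.Cyc

/-- `M`-periodic set of integers -/
def Per (M : ℤ) (x : Set ℤ) : Prop := ∀ c : ℤ, c + M ∈ x ↔ c ∈ x

/-- shift -/
def sh (s : ℤ) (x : Set ℤ) : Set ℤ := {c | c - s ∈ x}

/-- number of elements in a period -/
noncomputable def rk (M : ℤ) (x : Set ℤ) : ℕ := (x ∩ Set.Ico 0 M).ncard

theorem mem_sh {s c : ℤ} {x : Set ℤ} : c ∈ sh s x ↔ c - s ∈ x := Iff.rfl

theorem sh_zero (x : Set ℤ) : sh 0 x = x := by ext c; simp [mem_sh]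

theorem sh_sh (s t : ℤ) (x : Set ℤ) : sh s (sh t x) = sh (s + t) x := by
  ext c; simp only [mem_sh]; rw [show c - (s + t) = c - s - t by ring]

theorem sh_inj {s : ℤ} {x y : Set ℤ} (h : sh s x = sh s y) : x = y := by
  have := congrArg (sh (-s)) h
  simpa [sh_sh, sh_zero] using this

theorem sh_subset {s : ℤ} {x y : Set ℤ} (h : x ⊆ y) : sh s x ⊆ sh s y := fun _ hc => h hc

theorem sh_eq_iff_per {M : ℤ} {x : Set ℤ} : sh M x = x ↔ Per M x := by
  constructor
  · intro h c
    constructor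
    · intro hc
      rw [← h, mem_sh] at hc
      simpa using hc
    · intro hc
      rw [← h, mem_sh]
      simpa using hc
  · intro h
    ext c
    rw [mem_sh, ← h (c - M)]
    simp

theorem Per.mul {M : ℤ} {x : Set ℤ} (h : Per M x) (k : ℤ) : Per (k * M) x := by
  induction k using Int.induction_on with
  | zero => intro c; simp
  | succ k ih =>
    intro c
    rw [show c + ((k : ℤ) + 1) * M = (c + k * M) + M by ring, h, ih]
  | pred k ih =>
    intro c
    rw [← h, show c + (-(k : ℤ) - 1) * M + M = c + -(k : ℤ) * M by ring, ih]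

theorem Per.dvd {M N : ℤ} {x : Set ℤ} (h : Per M x) (hd : M ∣ N) : Per N x := by
  obtain ⟨k, rfl⟩ := hd
  rw [mul_comm]; exact h.mul k

theorem Per.sh {M : ℤ} {x : Set ℤ} (h : Per M x) (s : ℤ) : Per M (Cyc.sh s x) := by
  intro c
  rw [mem_sh, mem_sh, ← h (c - s)]
  rw [show c + M - s = c - s + M by ring]

theorem sh_comm (s t : ℤ) (x : Set ℤ) : sh s (sh t x) = sh t (sh s x) := by
  rw [sh_sh, sh_sh, add_comm]

/-- windows -/
theorem win_succ {M : ℤ} (hM : 0 < M) {x : Set ℤ} (h : Per M x) (w : ℤ) :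
    (x ∩ Set.Ico (w + 1) (w + 1 + M)).ncard = (x ∩ Set.Ico w (w + M)).ncard := by
  have hf : (x ∩ Set.Ico (w + 1) (w + M)).Finite := (Set.finite_Ico _ _).subset Set.inter_subset_right
  by_cases hw : w ∈ x
  · have h1 : x ∩ Set.Ico w (w + M) = insert w (x ∩ Set.Ico (w + 1) (w + M)) := by
      ext c
      simp only [Set.mem_inter_iff, Set.mem_Ico, Set.mem_insert_iff]
      constructor
      · rintro ⟨h1, h2, h3⟩
        by_cases hc : c = w
        · exact Or.inl hc
        · exact Or.inr ⟨h1, by omega, by omega⟩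
      · rintro (rfl | ⟨h1, h2, h3⟩)
        · exact ⟨hw, by omega, by omega⟩
        · exact ⟨h1, by omega, by omega⟩
    have h2 : x ∩ Set.Ico (w + 1) (w + 1 + M) = insert (w + M) (x ∩ Set.Ico (w + 1) (w + M)) := by
      ext c
      simp only [Set.mem_inter_iff, Set.mem_Ico, Set.mem_insert_iff]
      constructor
      · rintro ⟨h1, h2, h3⟩
        by_cases hc : c = w + M
        · exact Or.inl hc
        · exact Or.inr ⟨h1, by omega, by omega⟩
      · rintro (rfl | ⟨h1, h2, h3⟩)
        · exact ⟨(h w).2 hw, by omega, by omega⟩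
        · exact ⟨h1, by omega, by omega⟩
    rw [h1, h2, Set.ncard_insert_of_notMem _ hf, Set.ncard_insert_of_notMem _ hf]
    · simp
    · simp
  · have h1 : x ∩ Set.Ico w (w + M) = x ∩ Set.Ico (w + 1) (w + M) := by
      ext c
      simp only [Set.mem_inter_iff, Set.mem_Ico]
      constructor
      · rintro ⟨h1, h2, h3⟩
        have : c ≠ w := fun e => hw (e ▸ h1)
        exact ⟨h1, by omega, by omega⟩
      · rintro ⟨h1, h2, h3⟩
        exact ⟨h1, by omega, by omega⟩
    have h2 : x ∩ Set.Ico (w + 1) (w + 1 + M) = x ∩ Set.Ico (w + 1) (w + M) := by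
      ext c
      simp only [Set.mem_inter_iff, Set.mem_Ico]
      constructor
      · rintro ⟨h1, h2, h3⟩
        have : c ≠ w + M := fun e => hw ((h w).1 (e ▸ h1))
        exact ⟨h1, by omega, by omega⟩
      · rintro ⟨h1, h2, h3⟩
        exact ⟨h1, by omega, by omega⟩
    rw [h1, h2]

theorem win_eq {M : ℤ} (hM : 0 < M) {x : Set ℤ} (h : Per M x) (w : ℤ) :
    (x ∩ Set.Ico w (w + M)).ncard = rk M x := by
  induction w using Int.induction_on with
  | zero => simp [rk]
  | succ k ih => rw [win_succ hM h]; exact ih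
  | pred k ih =>
    have := win_succ hM h (-(k : ℤ) - 1)
    rw [← this]
    rw [show -(k : ℤ) - 1 + 1 = -k by ring]
    exact ih

theorem rk_sh {M : ℤ} (hM : 0 < M) {x : Set ℤ} (h : Per M x) (s : ℤ) : rk M (sh s x) = rk M x := by
  rw [← win_eq hM h (-s), rk]
  have : sh s x ∩ Set.Ico 0 M = (fun c => c + s) '' (x ∩ Set.Ico (-s) (-s + M)) := by
    ext c
    simp only [Set.mem_inter_iff, mem_sh, Set.mem_Ico, Set.mem_image]
    constructor
    · rintro ⟨h1, h2, h3⟩
      exact ⟨c - s, ⟨h1, by omega, by omega⟩, by ring⟩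
    · rintro ⟨d, ⟨h1, h2, h3⟩, rfl⟩
      exact ⟨by simpa using h1, by omega, by omega⟩
  rw [this, Set.ncard_image_of_injective _ (fun a b hab => by simpa using hab)]

theorem rk_empty (M : ℤ) : rk M ∅ = 0 := by simp [rk]

theorem rk_univ {M : ℕ} : rk M Set.univ = M := by
  rw [rk, Set.univ_inter]
  rw [← Finset.coe_Ico, Set.ncard_coe_finset]
  simp

theorem rk_le {M : ℤ} {x y : Set ℤ} (h : x ⊆ y) : rk M x ≤ rk M y :=
  Set.ncard_le_ncard (Set.inter_subset_inter_left _ h) ((Set.finite_Ico _ _).subset Set.inter_subset_right)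

theorem rk_pos {M : ℤ} (hM : 0 < M) {x : Set ℤ} (h : Per M x) (hx : x.Nonempty) : 0 < rk M x := by
  obtain ⟨c, hc⟩ := hx
  rw [← win_eq hM h c]
  have hf : (x ∩ Set.Ico c (c + M)).Finite := (Set.finite_Ico _ _).subset Set.inter_subset_right
  rw [Set.ncard_pos hf]
  exact ⟨c, hc, by simp [hM]⟩

theorem rk_lt {M : ℕ} (hM : 0 < M) {x : Set ℤ} (h : Per M x) (hx : x ≠ Set.univ) : rk M x < M := by
  have hM' : (0 : ℤ) < M := by exact_mod_cast hM
  have : ∃ c, c ∉ x := by
    by_contra hcon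
    push Not at hcon
    exact hx (Set.eq_univ_of_forall hcon)
  obtain ⟨c, hc⟩ := this
  rw [← win_eq hM' h c]
  have h1 : (x ∩ Set.Ico c (c + M)).ncard < (Set.Ico c (c + (M : ℤ))).ncard := by
    apply Set.ncard_lt_ncard _ (Set.finite_Ico _ _)
    refine ⟨Set.inter_subset_right, fun hh => hc ?_⟩
    exact (hh (by simp [hM])).1
  have h2 : (Set.Ico c (c + (M : ℤ))).ncard = M := by
    rw [← Finset.coe_Ico, Set.ncard_coe_finset]
    simp
  omega

/-- a periodic set is determined to be everything or nothing by its rank; two comparable periodic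
sets of the same rank are equal -/
theorem eq_of_subset_rk {M : ℤ} (hM : 0 < M) {x y : Set ℤ} (hx : Per M x) (hy : Per M y)
    (h : x ⊆ y) (hr : rk M x = rk M y) : x = y := by
  apply Set.Subset.antisymm h
  intro c hc
  have hf : (y ∩ Set.Ico c (c + M)).Finite := (Set.finite_Ico _ _).subset Set.inter_subset_right
  have h1 : x ∩ Set.Ico c (c + M) = y ∩ Set.Ico c (c + M) := by
    apply Set.eq_of_subset_of_ncard_le (Set.inter_subset_inter_left _ h) _ hf
    rw [win_eq hM hx, win_eq hM hy, hr]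
  have h2 : c ∈ y ∩ Set.Ico c (c + M) := ⟨hc, by simp [hM]⟩
  rw [← h1] at h2
  exact h2.1

/-! ### enumeration of a periodic set -/

theorem exists_enum {U : Set ℤ} {M : ℤ} (hM : 0 < M) (hU : Per M U) (hne : U.Nonempty) :
    ∃ e : ℤ → ℤ, StrictMono e ∧ Set.range e = U := by
  classical
  have : Nonempty U := hne.to_subtype
  have : NoMaxOrder U := ⟨fun a => ⟨⟨a + M, (hU a).2 a.2⟩, by
    rw [← Subtype.coe_lt_coe]; show (a : ℤ) < a + M; omega⟩⟩
  have : NoMinOrder U := ⟨fun a => ⟨⟨a - M, by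
    have := hU ((a : ℤ) - M)
    rw [sub_add_cancel] at this
    exact this.1 a.2⟩, by
    rw [← Subtype.coe_lt_coe]; show (a : ℤ) - M < a; omega⟩⟩
  let _ : LocallyFiniteOrder U := inferInstanceAs (LocallyFiniteOrder {c // c ∈ U})
  let _ : SuccOrder U := LinearLocallyFiniteOrder.succOrder U
  let _ : PredOrder U := LinearLocallyFiniteOrder.predOrder U
  let E : U ≃o ℤ := orderIsoIntOfLinearSuccPredArch
  refine ⟨fun j => (E.symm j : ℤ), fun a b hab => ?_, ?_⟩
  · have := E.symm.strictMono hab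
    exact this
  · ext c
    constructor
    · rintro ⟨j, rfl⟩
      exact (E.symm j).2
    · intro hc
      exact ⟨E ⟨c, hc⟩, by simp⟩

/-- translations preserving `U` are translations of the index -/
theorem exists_shift {e : ℤ → ℤ} (he : StrictMono e) {s : ℤ} (hs : Per s (Set.range e)) :
    ∃ s' : ℤ, ∀ j, e (j + s') = e j + s := by
  have h1 : ∀ j, ∃ k, e k = e j + s := fun j => (hs (e j)).2 ⟨j, rfl⟩
  choose g hg using h1
  have h2 : ∀ j, ∃ k, e k + s = e j := fun j => by
    have := (hs (e j - s)).1 (by rw [sub_add_cancel]; exact ⟨j, rfl⟩)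
    obtain ⟨k, hk⟩ := this
    exact ⟨k, by rw [hk]; ring⟩
  have hgm : StrictMono g := fun a b hab => by
    have := he hab
    have h3 : e (g a) < e (g b) := by rw [hg, hg]; omega
    exact he.lt_iff_lt.1 h3
  have hgs : ∀ j, ∃ k, g k = j := fun j => by
    obtain ⟨k, hk⟩ := h2 j
    exact ⟨k, he.injective (by rw [hg, hk])⟩
  have hsucc : ∀ j, g (j + 1) = g j + 1 := by
    intro j
    have h3 : g j < g (j + 1) := hgm (by omega)
    by_contra hne
    have h4 : g j + 1 < g (j + 1) := by omega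
    obtain ⟨k, hk⟩ := hgs (g j + 1)
    have h5 : j < k := hgm.lt_iff_lt.1 (by omega)
    have h6 : k < j + 1 := hgm.lt_iff_lt.1 (by omega)
    omega
  refine ⟨g 0, fun j => ?_⟩
  have : g j = j + g 0 := by
    induction j using Int.induction_on with
    | zero => simp
    | succ k ih => rw [hsucc, ih]; ring
    | pred k ih =>
      have := hsucc (-(k : ℤ) - 1)
      rw [show -(k : ℤ) - 1 + 1 = -k by ring, ih] at this
      omega
  rw [← this, hg]

end Pool.Agent.Helper47.Cyc
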